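import Pool.Agent.CTm.Defs

/-!
# Affine maps on residue classes
-/

namespace Pool.Agent.CTm

/-- `h` is affine on the class of `r` modulo `N m ^ J`, with image a class modulo `N m ^ L`. -/
def Aff (N m : ℕ) (h : Equiv.Perm ℤ) (J L : ℕ) (r : ℤ) : Prop :=
  ∀ k : ℤ, h (r + (N : ℤ) * (m : ℤ) ^ J * k) = h r + (N : ℤ) * (m : ℤ) ^ L * k

section
variable {N m : ℕ}

/-- the modulus `N m ^ J` -/
abbrev md (N m J : ℕ) : ℤ := (N : ℤ) * (m : ℤ) ^ J

theorem md_pos (hN : 0 < N) (hm : 2 ≤ m) (J : ℕ) : 0 < md N m J := by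
  have h1 : (0 : ℤ) < (N : ℤ) := by exact_mod_cast hN
  have h2 : (0 : ℤ) < (m : ℤ) := by exact_mod_cast (by omega : 0 < m)
  exact mul_pos h1 (pow_pos h2 J)

theorem md_add (J i : ℕ) : md N m (J + i) = md N m J * (m : ℤ) ^ i := by
  simp only [md, pow_add, mul_assoc]

theorem md_dvd {J I : ℕ} (h : J ≤ I) : md N m J ∣ md N m I := by
  obtain ⟨i, rfl⟩ := Nat.exists_eq_add_of_le h
  rw [md_add]
  exact dvd_mul_right _ _

theorem md_inj (hN : 0 < N) (hm : 2 ≤ m) {J I : ℕ} (h : md N m J = md N m I) : J = I := by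
  have h1 : (N : ℤ) ≠ 0 := by exact_mod_cast hN.ne'
  have h2 := mul_left_cancel₀ h1 h
  have h3 : m ^ J = m ^ I := by exact_mod_cast h2
  exact Nat.pow_right_injective hm h3

theorem inv_ap (h : Equiv.Perm ℤ) (n : ℤ) : h⁻¹ (h n) = n := by simp

theorem ap_inv (h : Equiv.Perm ℤ) (n : ℤ) : h (h⁻¹ n) = n := by simp

theorem aff_iff {h : Equiv.Perm ℤ} {J L : ℕ} {r : ℤ} :
    Aff N m h J L r ↔ ∀ k : ℤ, h (r + md N m J * k) = h r + md N m L * k := Iff.rfl

theorem aff_one (J : ℕ) (r : ℤ) : Aff N m 1 J J r := fun _ => rfl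

theorem aff_mul {g h : Equiv.Perm ℤ} {J L K : ℕ} {r : ℤ} (h1 : Aff N m h J L r)
    (h2 : Aff N m g L K (h r)) : Aff N m (g * h) J K r := by
  intro k
  rw [Equiv.Perm.mul_apply, Equiv.Perm.mul_apply, h1 k, h2 k]

theorem aff_inv {h : Equiv.Perm ℤ} {J L : ℕ} {r : ℤ} (h1 : Aff N m h J L r) :
    Aff N m h⁻¹ L J (h r) := by
  intro k
  rw [← h1 k, inv_ap, inv_ap]

theorem aff_restrict {h : Equiv.Perm ℤ} {J L : ℕ} {r r' : ℤ} (h1 : Aff N m h J L r)
    (hr : md N m J ∣ r' - r) (i : ℕ) : Aff N m h (J + i) (L + i) r' := by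
  obtain ⟨t, ht⟩ := hr
  have e : r' = r + md N m J * t := by linarith
  intro k
  have e1 : r' + (N : ℤ) * (m : ℤ) ^ (J + i) * k = r + md N m J * (t + (m : ℤ) ^ i * k) := by
    rw [e]
    ring
  rw [e1, h1, e, h1]
  ring

theorem aff_self {h : Equiv.Perm ℤ} {J L : ℕ} {r r' : ℤ} (h1 : Aff N m h J L r)
    (hr : md N m J ∣ r' - r) : Aff N m h J L r' := aff_restrict h1 hr 0

theorem aff_up {h : Equiv.Perm ℤ} {J L : ℕ} {r : ℤ} (h1 : Aff N m h J L r) (i : ℕ) :
    Aff N m h (J + i) (L + i) r := aff_restrict h1 (by simp) i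

/-- image of a congruent number -/
theorem aff_dvd {h : Equiv.Perm ℤ} {J L : ℕ} {r : ℤ} (h1 : Aff N m h J L r) {n : ℤ} {i : ℕ}
    (hn : md N m (J + i) ∣ n - r) : md N m (L + i) ∣ h n - h r := by
  obtain ⟨t, ht⟩ := hn
  have e : n = r + md N m J * ((m : ℤ) ^ i * t) := by
    rw [md_add] at ht
    linear_combination ht
  rw [e, h1, md_add]
  exact ⟨t, by ring⟩

theorem aff_dvd' {h : Equiv.Perm ℤ} {J L : ℕ} {r : ℤ} (h1 : Aff N m h J L r) {n : ℤ} {i : ℕ}
    (hn : md N m (L + i) ∣ h n - h r) : md N m (J + i) ∣ n - r := by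
  have h2 := aff_dvd (aff_inv h1) hn
  rwa [inv_ap, inv_ap] at h2

/-- the exponent of the slope is unique -/
theorem aff_unique (hN : 0 < N) (hm : 2 ≤ m) {h : Equiv.Perm ℤ} {J L J' L' : ℕ} {r : ℤ}
    (h1 : Aff N m h J L r) (h2 : Aff N m h J' L' r) : J + L' = J' + L := by
  have h3 := aff_up h1 J'
  have h4 := aff_up h2 J
  rw [add_comm J' J] at h4
  have h5 := h3 1
  have h6 := h4 1
  rw [h5] at h6
  have h7 : md N m (L + J') = md N m (L' + J) := by
    have := add_left_cancel h6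
    simpa using this
  have h8 := md_inj hN hm h7
  omega

/-- a sign preserving map which maps a class affinely onto itself is the identity there -/
theorem aff_id (hN : 0 < N) (hm : 2 ≤ m) {h : Equiv.Perm ℤ} (hs : ∀ n : ℤ, 0 ≤ h n ↔ 0 ≤ n)
    {J : ℕ} {r : ℤ} (h1 : Aff N m h J J r) (h2 : md N m J ∣ h r - r) {n : ℤ}
    (hn : md N m J ∣ n - r) : h n = n := by
  have hM := md_pos hN hm J
  obtain ⟨t, ht⟩ := h2
  -- on the whole class `h` is the translation by `M t`
  have key : ∀ k : ℤ, md N m J ∣ k - r → h k = k + md N m J * t := by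
    intro k hk
    obtain ⟨u, hu⟩ := hk
    have e : k = r + md N m J * u := by linarith
    rw [e, h1]
    linarith
  have ht0 : t = 0 := by
    by_contra hne
    rcases lt_or_gt_of_ne hne with h3 | h3
    · -- a nonnegative element below the modulus
      have e1 : md N m J ∣ r % md N m J - r :=
        ⟨-(r / md N m J), by have := Int.emod_add_mul_ediv r (md N m J); linarith⟩
      have e2 := key _ e1
      have e3 := (hs (r % md N m J)).2 (Int.emod_nonneg _ hM.ne')
      have e4 := Int.emod_lt_of_pos r hM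
      rw [e2] at e3
      nlinarith
    · have e1 : md N m J ∣ (r % md N m J - md N m J) - r :=
        ⟨-(r / md N m J) - 1, by have := Int.emod_add_mul_ediv r (md N m J); linarith⟩
      have e2 := key _ e1
      have e4 := Int.emod_lt_of_pos r hM
      have e5 := Int.emod_nonneg r hM.ne'
      have e3 : 0 ≤ h (r % md N m J - md N m J) := by
        rw [e2]
        nlinarith
      have e6 := (hs _).1 e3
      linarith
  rw [key n hn, ht0, mul_zero, add_zero]

end

end Pool.Agent.CTm
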