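import Pool.Agent.CTm.Pt

/-!
# Compactness
-/

namespace Pool.Agent.CTm

open Filter Topology

section
variable {N m : ℕ}

theorem seq_lim (u : ℕ → Pt N m) : ∃ y : Pt N m, ∀ J n0 : ℕ, ∃ n, n0 ≤ n ∧ (u n) J = y J := by
  have hK : IsCompact (Set.univ.pi (fun j : ℕ => Set.Ico (0 : ℤ) (md N m j))) :=
    isCompact_univ_pi fun j => (Set.finite_Ico _ _).isCompact
  obtain ⟨y, -, hy2⟩ := hK.exists_mapClusterPt (f := atTop) (u := fun n => (u n).1)
    (by
      rw [le_principal_iff, mem_map]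
      exact Eventually.of_forall fun n => fun j _ => ⟨(u n).nonneg j, (u n).lt j⟩)
  rw [mapClusterPt_iff_frequently] at hy2
  have hV : ∀ j, {z : ℕ → ℤ | z j = y j} ∈ 𝓝 y := fun j => by
    have h1 : Continuous fun z : ℕ → ℤ => z j := continuous_apply j
    exact h1.continuousAt.preimage_mem_nhds (by simp : ({y j} : Set ℤ) ∈ 𝓝 (y j))
  have key : ∀ J n0 : ℕ, ∃ n, n0 ≤ n ∧ (u n) J = y J ∧ (u n) (J + 1) = y (J + 1) := by
    intro J n0
    have h1 := hy2 _ (inter_mem (hV J) (hV (J + 1)))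
    obtain ⟨n, hn1, hn2⟩ := (frequently_atTop.1 h1) n0
    exact ⟨n, hn1, hn2.1, hn2.2⟩
  refine ⟨⟨y, fun j => ?_⟩, fun J n0 => ?_⟩
  · obtain ⟨n, -, h1, h2⟩ := key j 0
    rw [← h1, ← h2]
    exact (u n).2 j
  · obtain ⟨n, h0, h1, -⟩ := key J n0
    exact ⟨n, h0, h1⟩

/-- uniformity by compactness -/
theorem unif {P : ℕ → Pt N m → Prop}
    (mono : ∀ J J' : ℕ, ∀ x x' : Pt N m, J ≤ J' → x' J = x J → P J x → P J' x')
    (h : ∀ x, ∃ J, P J x) : ∃ J, ∀ x, P J x := by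
  by_contra hcon
  push Not at hcon
  choose u hu using hcon
  obtain ⟨y, hy⟩ := seq_lim u
  obtain ⟨J, hJ⟩ := h y
  obtain ⟨n, hn1, hn2⟩ := hy J J
  exact hu n (mono J n y (u n) hn1 hn2 hJ)

/-- an infinite set has an accumulation point -/
theorem accum {O : Set (Pt N m)} (hO : O.Infinite) :
    ∃ y : Pt N m, ∀ J, {z | z ∈ O ∧ z J = y J}.Infinite := by
  by_contra hcon
  push Not at hcon
  obtain ⟨J, hJ⟩ := unif (P := fun J y => {z | z ∈ O ∧ z J = y J}.Finite)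
    (fun J J' x x' h1 h2 h3 => by
      refine h3.subset ?_
      rintro z ⟨hz1, hz2⟩
      exact ⟨hz1, (Pt.eq_le h1 hz2).trans h2⟩)
    (fun x => by
      obtain ⟨J, hJ⟩ := hcon x
      exact ⟨J, hJ⟩)
  refine hO ?_
  have h1 : O ⊆ ⋃ c ∈ Set.Ico (0 : ℤ) (md N m J), {z | z ∈ O ∧ z J = c} := by
    intro z hz
    simp only [Set.mem_iUnion]
    exact ⟨z J, ⟨z.nonneg J, z.lt J⟩, hz, rfl⟩
  refine Set.Finite.subset (Set.Finite.biUnion (Set.finite_Ico _ _) fun c _ => ?_) h1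
  by_cases hc : ∃ z : Pt N m, z J = c
  · obtain ⟨z, rfl⟩ := hc
    exact hJ z
  · push Not at hc
    convert Set.finite_empty
    ext z
    simp [hc z]

end

end Pool.Agent.CTm
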