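import Mathlib

/-!
# The group `CT(ℤ)` and growth: definitions
-/

namespace Pool.Agent.CTm

open Filter Topology

/-- `f` is the class transposition which interchanges the disjoint residue classes `r₁ + m₁ ℤ` and
`r₂ + m₂ ℤ`, `0 ≤ r₁ < m₁`, `0 ≤ r₂ < m₂`. -/
def IsClassTransposition (f : Equiv.Perm ℤ) : Prop :=
  ∃ r₁ m₁ r₂ m₂ : ℤ, 0 ≤ r₁ ∧ r₁ < m₁ ∧ 0 ≤ r₂ ∧ r₂ < m₂ ∧
    (∀ k l : ℤ, r₁ + k * m₁ ≠ r₂ + l * m₂) ∧
    (∀ k : ℤ, f (r₁ + k * m₁) = r₂ + k * m₂ ∧ f (r₂ + k * m₂) = r₁ + k * m₁) ∧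
    ∀ n : ℤ, (∀ k : ℤ, n ≠ r₁ + k * m₁) → (∀ k : ℤ, n ≠ r₂ + k * m₂) → f n = n

/-- The group `CT(ℤ)` generated by all class transpositions. -/
def CT : Subgroup (Equiv.Perm ℤ) := Subgroup.closure {f | IsClassTransposition f}

/-- On every residue class of some modulus `M` the map `f` is affine, and its slope is a power of
`m` (with exponent in `ℤ`). -/
def SlopePow (m : ℕ) (f : Equiv.Perm ℤ) : Prop :=
  ∃ M : ℤ, 0 < M ∧ ∀ n : ℤ, ∃ a b : ℕ, ∀ k : ℤ,
    (m : ℤ) ^ a * (f (n + M * k) - f n) = (m : ℤ) ^ b * (M * k)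

section
variable {G : Type*} [Group G]

/-- The products of at most `n` elements of `S` and inverses of elements of `S`. -/
def ball (S : Set G) (n : ℕ) : Set G :=
  {g | ∃ l : List G, l.length ≤ n ∧ (∀ x ∈ l, x ∈ S ∨ x⁻¹ ∈ S) ∧ l.prod = g}

/-- The growth function. -/
noncomputable def growth (S : Set G) (n : ℕ) : ℕ := (ball S n).ncard

/-- Intermediate growth of the group generated by the finite set `S`. -/
def IntermediateGrowth (S : Set G) : Prop :=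
  (¬ ∃ C d : ℕ, ∀ n : ℕ, 1 ≤ n → growth S n ≤ C * n ^ d) ∧
    Tendsto (fun n : ℕ ↦ (growth S n : ℝ) ^ (1 / (n : ℝ))) atTop (𝓝 1)

/-- `s` and `t` generate a free semigroup of rank 2. -/
def FreePair (s t : G) : Prop :=
  Function.Injective (FreeMonoid.lift (fun i : Bool ↦ if i then s else t) : FreeMonoid Bool → G)

end

end Pool.Agent.CTm
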