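import Pool.Agent.CTm.Defs

/-!
# Free subsemigroups
-/

namespace Pool.Agent.CTm

section
variable {G : Type*} [Group G]

/-- the value of a word -/
def wd (s t : G) (l : List Bool) : G := (l.map (fun i : Bool ↦ if i then s else t)).prod

theorem wd_nil (s t : G) : wd s t [] = 1 := rfl

theorem wd_cons (s t : G) (b : Bool) (l : List Bool) :
    wd s t (b :: l) = (if b then s else t) * wd s t l := by
  simp [wd]

theorem wd_append (s t : G) (l l' : List Bool) : wd s t (l ++ l') = wd s t l * wd s t l' := by
  simp [wd]

theorem freePair_of {s t : G} (h : ∀ l l' : List Bool, wd s t l = wd s t l' → l = l') :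
    FreePair s t := by
  intro a b hab
  rw [FreeMonoid.lift_apply, FreeMonoid.lift_apply] at hab
  exact FreeMonoid.toList.injective (h _ _ hab)

theorem freePair_wd {s t : G} (h : FreePair s t) {l l' : List Bool} (hl : wd s t l = wd s t l') :
    l = l' := by
  have h1 := @h (FreeMonoid.ofList l) (FreeMonoid.ofList l') (by
    rw [FreeMonoid.lift_apply, FreeMonoid.lift_apply]
    exact hl)
  exact FreeMonoid.ofList.injective h1

variable {X : Type*} [MulAction G X]

theorem wd_mem {s t : G} {E : Set X} (hs : ∀ x ∈ E, s • x ∈ E) (ht : ∀ x ∈ E, t • x ∈ E)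
    (l : List Bool) : ∀ x ∈ E, wd s t l • x ∈ E := by
  induction l with
  | nil => intro x hx; rw [wd_nil, one_smul]; exact hx
  | cons b l ih =>
    intro x hx
    rw [wd_cons, mul_smul]
    cases b with
    | true => exact hs _ (ih x hx)
    | false => exact ht _ (ih x hx)

theorem wd_eq_one {s t : G} {E : Set X} (hE : E.Nonempty) (hs : ∀ x ∈ E, s • x ∈ E)
    (ht : ∀ x ∈ E, t • x ∈ E) (hd : ∀ x ∈ E, ∀ y ∈ E, s • x ≠ t • y) {l : List Bool}
    (hl : wd s t l = 1) : l = [] := by
  obtain ⟨e, he⟩ := hE
  cases l with
  | nil => rfl
  | cons b l =>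
    exfalso
    rw [wd_cons] at hl
    cases b with
    | true =>
      have h1 : s • (wd s t l • (t • e)) = t • e := by
        rw [← mul_smul]
        simp only [if_true] at hl
        rw [hl, one_smul]
      exact hd _ (wd_mem hs ht l _ (ht e he)) e he h1
    | false =>
      have h1 : t • (wd s t l • (s • e)) = s • e := by
        rw [← mul_smul]
        simp only [Bool.false_eq_true, if_false] at hl
        rw [hl, one_smul]
      exact hd e he _ (wd_mem hs ht l _ (hs e he)) h1.symm

/-- ping-pong -/
theorem ping_pong {s t : G} {E : Set X} (hE : E.Nonempty) (hs : ∀ x ∈ E, s • x ∈ E)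
    (ht : ∀ x ∈ E, t • x ∈ E) (hd : ∀ x ∈ E, ∀ y ∈ E, s • x ≠ t • y) : FreePair s t := by
  refine freePair_of ?_
  intro l
  induction l with
  | nil => intro l' hl'; exact (wd_eq_one hE hs ht hd hl'.symm).symm
  | cons b l ih =>
    intro l' hl'
    cases l' with
    | nil => exact wd_eq_one hE hs ht hd hl'
    | cons b' l' =>
      obtain ⟨e, he⟩ := hE
      have m1 := wd_mem hs ht l _ he
      have m2 := wd_mem hs ht l' _ he
      rw [wd_cons, wd_cons] at hl'
      have h2 := congrArg (fun g : G => g • e) hl'
      simp only [mul_smul] at h2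
      cases b <;> cases b'
      · rw [ih l' (mul_left_cancel hl')]
      · exact absurd h2.symm (hd _ m2 _ m1)
      · exact absurd h2 (hd _ m1 _ m2)
      · rw [ih l' (mul_left_cancel hl')]

/-- if `g` maps `U` into itself, `k` is the identity on `g U` but not on `U`, and no power of `g`
fixes `g y`, then `g` and `g k` generate a free semigroup. -/
theorem lemE {g k : G} {U : Set X} (hg : ∀ x ∈ U, g • x ∈ U) (hk : ∀ x ∈ U, k • (g • x) = g • x)
    {y : X} (hy : y ∈ U) (hky : k • y ≠ y) (hgy : ∀ i : ℕ, 0 < i → g ^ i • (g • y) ≠ g • y) :
    FreePair g (g * k) := by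
  have key : ∀ l : List Bool, ∀ x ∈ U, wd g (g * k) l • (g • x) = g ^ l.length • (g • x) := by
    intro l
    induction l with
    | nil => intro x _; rw [wd_nil]; simp
    | cons b l ih =>
      intro x hx
      rw [wd_cons, mul_smul, ih x hx, List.length_cons, pow_succ', mul_smul]
      have hm : ∀ i : ℕ, ∃ z ∈ U, g ^ i • (g • x) = g • z := by
        intro i
        induction i with
        | zero => exact ⟨x, hx, by simp⟩
        | succ i ih2 =>
          obtain ⟨z, hz, hz2⟩ := ih2
          exact ⟨g • z, hg z hz, by rw [pow_succ', mul_smul, hz2]⟩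
      obtain ⟨z, hz, hz2⟩ := hm l.length
      cases b with
      | true => rfl
      | false =>
        simp only [Bool.false_eq_true, if_false]
        rw [mul_smul, hz2, hk z hz]
  refine freePair_of ?_
  -- equal lengths
  have hlen : ∀ l l' : List Bool, wd g (g * k) l = wd g (g * k) l' → l.length = l'.length := by
    have aux : ∀ a b : ℕ, a < b → g ^ a • (g • y) ≠ g ^ b • (g • y) := by
      intro a b hab h
      have e : b = a + (b - a) := by omega
      rw [e, pow_add, mul_smul] at h
      exact hgy (b - a) (by omega) (smul_left_cancel _ h).symm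
    intro l l' h
    have h1 := key l y hy
    have h2 := key l' y hy
    rw [h, h2] at h1
    rcases lt_trichotomy l.length l'.length with h3 | h3 | h3
    · exact absurd h1.symm (aux _ _ h3)
    · exact h3
    · exact absurd h1 (aux _ _ h3)
  -- different last letters
  have hlast : ∀ l l' : List Bool, l.length = l'.length →
      wd g (g * k) l * g ≠ wd g (g * k) l' * (g * k) := by
    intro l l' hll h
    have h2 := congrArg (fun a : G => a • y) h
    simp only [mul_smul] at h2
    rw [key l y hy, hll, ← key l' y hy] at h2
    exact hky (smul_left_cancel _ (smul_left_cancel _ h2)).symm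
  intro l
  induction l using List.reverseRecOn with
  | nil =>
    intro l' h
    have := hlen _ _ h
    simpa using this.symm
  | append_singleton l b ih =>
    intro l' h
    have h1 := hlen _ _ h
    rcases List.eq_nil_or_concat l' with rfl | ⟨l'', b', rfl⟩
    · simp at h1
    · rw [List.length_append, List.concat_eq_append, List.length_append] at h1
      simp only [List.length_singleton] at h1
      have h3 : l.length = l''.length := by omega
      rw [List.concat_eq_append, wd_append, wd_append] at h
      rw [List.concat_eq_append]
      have e1 : wd g (g * k) [true] = g := by simp [wd]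
      have e2 : wd g (g * k) [false] = g * k := by simp [wd]
      cases b <;> cases b'
      · rw [ih l'' (mul_right_cancel h)]
      · rw [e1, e2] at h
        exact absurd h.symm (hlast _ _ h3.symm)
      · rw [e1, e2] at h
        exact absurd h (hlast _ _ h3)
      · rw [ih l'' (mul_right_cancel h)]

end

end Pool.Agent.CTm
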