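import Pool.Agent.CTm.Comp
import Pool.Agent.CTm.Semi

/-!
# Orbits, accumulation, and finite orbits
-/

namespace Pool.Agent.CTm

section
variable {N m : ℕ} [hN : Fact (0 < N)] [hm : Fact (2 ≤ m)]

/-- a symmetric set of generators, affine on all classes of level `≥ D` -/
structure Fam (T : Set (Gp N m)) (D : ℕ) : Prop where
  inv : ∀ s ∈ T, s⁻¹ ∈ T
  aff : ∀ s ∈ T, ∀ x : Pt N m, ∀ J : ℕ, D ≤ J → ∃ L : ℕ, L ≤ J + D ∧ J ≤ L + D ∧ Loc s x J L

/-- the orbit -/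
def orb (H : Subgroup (Gp N m)) (x : Pt N m) : Set (Pt N m) := {y | ∃ h ∈ H, h • x = y}

/-- the orbit of `x` accumulates at `y` (or contains `y`) -/
def Acc (H : Subgroup (Gp N m)) (x y : Pt N m) : Prop := ∀ J, ∃ h ∈ H, (h • x) J = y J

/-- no free subsemigroup -/
def NoFree (H : Subgroup (Gp N m)) : Prop := ∀ s ∈ H, ∀ t ∈ H, ¬ FreePair s t

/-- the class of `x` of level `n` can be mapped onto a class with level in `(D, 2 D]` -/
def InW (H : Subgroup (Gp N m)) (D n : ℕ) (x : Pt N m) : Prop :=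
  ∃ h ∈ H, ∃ L, D < L ∧ L ≤ 2 * D ∧ Loc h x n L

theorem Acc.refl (H : Subgroup (Gp N m)) (x : Pt N m) : Acc H x x :=
  fun J => ⟨1, H.one_mem, by rw [one_smul]⟩

/-- continuity -/
theorem exists_loc (h : Gp N m) (x : Pt N m) (K : ℕ) : ∃ J L, K ≤ J ∧ K ≤ L ∧ Loc h x J L := by
  obtain ⟨D', hD⟩ := loc_ex h
  obtain ⟨L, h1, h2, h3⟩ := hD x (K + D') (by omega)
  exact ⟨K + D', L, by omega, by omega, h3⟩

theorem Acc.smul {H : Subgroup (Gp N m)} {x y : Pt N m} (h1 : Acc H x y) {g : Gp N m}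
    (hg : g ∈ H) : Acc H x (g • y) := by
  intro K
  obtain ⟨J, L, hJ, hL, hloc⟩ := exists_loc g y K
  obtain ⟨h, hh, hhx⟩ := h1 J
  refine ⟨g * h, H.mul_mem hg hh, ?_⟩
  rw [mul_smul]
  exact Pt.eq_le hL (hloc.img0 hhx)

theorem Acc.trans {H : Subgroup (Gp N m)} {x y z : Pt N m} (h1 : Acc H x y) (h2 : Acc H y z) :
    Acc H x z := by
  intro J
  obtain ⟨g, hg, hgy⟩ := h2 J
  obtain ⟨h, hh, hhx⟩ := h1.smul hg J
  exact ⟨h, hh, hhx.trans hgy⟩

theorem mem_orb_self (H : Subgroup (Gp N m)) (x : Pt N m) : x ∈ orb H x :=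
  ⟨1, H.one_mem, one_smul _ x⟩

theorem orb_smul {H : Subgroup (Gp N m)} {g : Gp N m} (hg : g ∈ H) (x : Pt N m) :
    orb H (g • x) = orb H x := by
  ext y
  constructor
  · rintro ⟨h, hh, rfl⟩
    exact ⟨h * g, H.mul_mem hh hg, mul_smul _ _ _⟩
  · rintro ⟨h, hh, rfl⟩
    exact ⟨h * g⁻¹, H.mul_mem hh (H.inv_mem hg), by rw [mul_smul, inv_smul_smul]⟩

variable {T : Set (Gp N m)} {D : ℕ}

/-- induction over the group -/
theorem Fam.induct (hT : Fam T D) {P : Gp N m → Prop} (h1 : P 1)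
    (hs : ∀ s ∈ T, ∀ h, P h → P (s * h)) {h : Gp N m} (hh : h ∈ Subgroup.closure T) : P h := by
  induction hh using Subgroup.closure_induction_left with
  | one => exact h1
  | mul_left x hx y _ hy => exact hs x hx y hy
  | inv_mul_cancel x hx y _ hy => exact hs _ (hT.inv x hx) y hy

theorem Fam.not_inW (hT : Fam T D) {n : ℕ} (hn : 2 * D < n) {x : Pt N m}
    (hx : ¬ InW (Subgroup.closure T) D n x) {h : Gp N m} (hh : h ∈ Subgroup.closure T) :
    ∃ L, 2 * D < L ∧ Loc h x n L := by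
  have key : h ∈ Subgroup.closure T ∧ ∃ L, 2 * D < L ∧ Loc h x n L := by
    refine hT.induct (P := fun h => h ∈ Subgroup.closure T ∧ ∃ L, 2 * D < L ∧ Loc h x n L)
      ⟨Subgroup.one_mem _, n, hn, Loc.one x n⟩ ?_ hh
    rintro s hs h ⟨h0, L, hL, hloc⟩
    have h1 : s * h ∈ Subgroup.closure T :=
      Subgroup.mul_mem _ (Subgroup.subset_closure hs) h0
    refine ⟨h1, ?_⟩
    obtain ⟨K, k1, k2, k3⟩ := hT.aff s hs (h • x) L (by omega)
    refine ⟨K, ?_, hloc.mul k3⟩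
    by_contra hK
    exact hx ⟨s * h, h1, K, by omega, by omega, hloc.mul k3⟩
  exact key.2

theorem Fam.inW_mono (hT : Fam T D) {n n' : ℕ} (hn : 2 * D < n) (hnn : n ≤ n') {x : Pt N m}
    (hx : InW (Subgroup.closure T) D n' x) : InW (Subgroup.closure T) D n x := by
  by_contra hcon
  obtain ⟨h, hh, L, h1, h2, h3⟩ := hx
  obtain ⟨L', h4, h5⟩ := hT.not_inW hn hcon hh
  have h6 := h3.unique h5
  omega

theorem InW.cong {H : Subgroup (Gp N m)} {n : ℕ} {x y : Pt N m} (h : InW H D n x)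
    (hxy : y n = x n) : InW H D n y := by
  obtain ⟨h, hh, L, h1, h2, h3⟩ := h
  exact ⟨h, hh, L, h1, h2, h3.cong hxy⟩

/-- if the orbit of `x` does not accumulate at a point of `W` then it is finite -/
theorem Fam.finite_of_not (hT : Fam T D) {x : Pt N m}
    (hx : ∀ y, Acc (Subgroup.closure T) x y → ∃ n, 2 * D < n ∧ ¬ InW (Subgroup.closure T) D n y) :
    (orb (Subgroup.closure T) x).Finite := by
  obtain ⟨n, hn⟩ := unif (P := fun n (y : Pt N m) =>
      (2 * D < n ∧ ¬ InW (Subgroup.closure T) D n y) ∨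
        ∀ h ∈ Subgroup.closure T, (h • x) n ≠ y n)
    (by
      intro J J' y y' hJ hy hP
      rcases hP with ⟨h1, h2⟩ | h1
      · refine Or.inl ⟨by omega, fun h3 => h2 ?_⟩
        exact (hT.inW_mono h1 hJ h3).cong hy.symm
      · refine Or.inr fun h hh h3 => h1 h hh ?_
        exact (Pt.eq_le hJ h3).trans hy)
    (by
      intro y
      by_cases hy : Acc (Subgroup.closure T) x y
      · obtain ⟨n, h1, h2⟩ := hx y hy
        exact ⟨n, Or.inl ⟨h1, h2⟩⟩
      · unfold Acc at hy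
        push Not at hy
        obtain ⟨J, hJ⟩ := hy
        exact ⟨J, Or.inr hJ⟩)
  -- all orbit points are bad
  have h1 : ∀ h ∈ Subgroup.closure T, 2 * D < n ∧ ¬ InW (Subgroup.closure T) D n (h • x) := by
    intro h hh
    rcases hn (h • x) with h2 | h2
    · exact h2
    · exact absurd rfl (h2 h hh)
  have h2 : 2 * D < n := (h1 1 (Subgroup.one_mem _)).1
  have h3 : ∀ h ∈ Subgroup.closure T, ∃ L, L < 2 * n ∧ Loc h x n L := by
    intro h hh
    obtain ⟨L, hL1, hL2⟩ := hT.not_inW h2 (by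
      have := (h1 1 (Subgroup.one_mem _)).2
      rwa [one_smul] at this) hh
    obtain ⟨L', hL1', hL2'⟩ := hT.not_inW h2 (h1 h hh).2 (Subgroup.inv_mem _ hh)
    have h4 := hL2.inv.unique hL2'
    exact ⟨L, by omega, hL2⟩
  choose! lv hlv1 hlv2 using h3
  -- the class of level `lv h` determines the orbit point
  have h4 : orb (Subgroup.closure T) x ⊆ ⋃ L ∈ Set.Iio (2 * n), ⋃ c ∈ Set.Ico (0 : ℤ) (md N m L),
      {y | y ∈ orb (Subgroup.closure T) x ∧ ∃ h ∈ Subgroup.closure T, h • x = y ∧ lv h = L ∧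
        (h • x) L = c} := by
    rintro y ⟨h, hh, rfl⟩
    simp only [Set.mem_iUnion]
    exact ⟨lv h, hlv1 h hh, (h • x) (lv h), ⟨Pt.nonneg _ _, Pt.lt _ _⟩, ⟨h, hh, rfl⟩, h, hh, rfl,
      rfl, rfl⟩
  refine Set.Finite.subset (Set.Finite.biUnion (Set.finite_Iio _) fun L _ =>
    Set.Finite.biUnion (Set.finite_Ico _ _) fun c _ => ?_) h4
  refine Set.Subsingleton.finite ?_
  rintro y ⟨-, h, hh, rfl, hL, hc⟩ y' ⟨-, h', hh', rfl, hL', hc'⟩
  have a1 := hlv2 h hh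
  have a2 := hlv2 h' hh'
  rw [hL] at a1
  rw [hL'] at a2
  have a3 : Loc h⁻¹ (h' • x) L n := a1.inv.cong (hc'.trans hc.symm)
  have a4 : Loc (h⁻¹ * h') x n n := a2.mul a3
  have a5 : ((h⁻¹ * h') • x) n = x n := by
    rw [mul_smul]
    have := a1.inv.img0 (y := h' • x) (hc'.trans hc.symm)
    rwa [inv_smul_smul] at this
  have a6 := a4.fix a5 (y := x) rfl
  rw [mul_smul, inv_smul_eq_iff] at a6
  exact a6.symm

/-- a point of `W` whose orbit meets some class of level in `(D, 2 D]` in exactly one point -/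
theorem Fam.single (hT : Fam T D) (hF : NoFree (Subgroup.closure T)) {x : Pt N m}
    (hx : ∀ n, 2 * D < n → InW (Subgroup.closure T) D n x) :
    ∃ L, D < L ∧ L ≤ 2 * D ∧ ∃ e : ℤ, (∃ h ∈ Subgroup.closure T, (h • x) L = e) ∧
      ∀ k ∈ Subgroup.closure T, ∀ k' ∈ Subgroup.closure T, (k • x) L = e → (k' • x) L = e →
        k • x = k' • x := by
  -- choose the maps
  have h1 : ∀ i : ℕ, ∃ h ∈ Subgroup.closure T, ∃ L, D < L ∧ L ≤ 2 * D ∧
      Loc h x (2 * D + 1 + i) L := fun i => hx _ (by omega)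
  choose h hh L hL1 hL2 hloc using h1
  -- pigeonhole
  obtain ⟨⟨L0, e0⟩, -, hinf⟩ : ∃ p ∈ (⋃ K ∈ Set.Iic (2 * D), (fun c : ℤ => (K, c)) ''
      Set.Ico (0 : ℤ) (md N m K)), {i : ℕ | (L i, (h i • x) (L i)) = p}.Infinite := by
    have hfin : (⋃ K ∈ Set.Iic (2 * D), (fun c : ℤ => (K, c)) ''
      Set.Ico (0 : ℤ) (md N m K)).Finite :=
      Set.Finite.biUnion (Set.finite_Iic _) fun K _ => (Set.finite_Ico _ _).image _
    have hmem : ∀ i : ℕ, (L i, (h i • x) (L i)) ∈ (⋃ K ∈ Set.Iic (2 * D),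
        (fun c : ℤ => (K, c)) '' Set.Ico (0 : ℤ) (md N m K)) := by
      intro i
      simp only [Set.mem_iUnion]
      exact ⟨L i, hL2 i, _, ⟨Pt.nonneg _ _, Pt.lt _ _⟩, rfl⟩
    by_contra hcon
    push Not at hcon
    have h5 : (Set.univ : Set ℕ) ⊆ ⋃ p ∈ (⋃ K ∈ Set.Iic (2 * D), (fun c : ℤ => (K, c)) ''
        Set.Ico (0 : ℤ) (md N m K)), {i : ℕ | (L i, (h i • x) (L i)) = p} := by
      intro i _
      simp only [Set.mem_iUnion]
      refine ⟨_, ?_, rfl⟩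
      have := hmem i
      simp only [Set.mem_iUnion] at this
      exact this
    exact Set.infinite_univ (Set.Finite.subset (Set.Finite.biUnion hfin fun p hp =>
      (hcon p hp)) h5)
  have hget : ∀ B : ℕ, ∃ n, B ≤ n ∧ ∃ g ∈ Subgroup.closure T, Loc g x n L0 ∧ (g • x) L0 = e0 ∧
      D < L0 ∧ L0 ≤ 2 * D := by
    intro B
    obtain ⟨i, hi1, hi2⟩ := hinf.exists_gt B
    have e1 : L i = L0 := (Prod.mk.inj hi1).1
    have e2 : (h i • x) (L i) = e0 := (Prod.mk.inj hi1).2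
    refine ⟨2 * D + 1 + i, by omega, h i, hh i, ?_, ?_, ?_, ?_⟩
    · rw [← e1]; exact hloc i
    · rw [← e1]; exact e2
    · rw [← e1]; exact hL1 i
    · rw [← e1]; exact hL2 i
  obtain ⟨n0, -, g0, hg0, hg1, hg2, hg3, hg4⟩ := hget 0
  refine ⟨L0, hg3, hg4, e0, ⟨g0, hg0, hg2⟩, ?_⟩
  intro k hk k' hk' hke hke'
  by_contra hne
  -- separating level
  obtain ⟨J0, hJ0⟩ : ∃ J0, (k • x) J0 ≠ (k' • x) J0 := by
    by_contra hcon
    push Not at hcon
    exact hne (Pt.ext hcon)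
  obtain ⟨J, K, j1, j2, j3⟩ := exists_loc k x (max J0 L0)
  obtain ⟨J', K', j1', j2', j3'⟩ := exists_loc k' x (max J0 L0)
  obtain ⟨n, hn, g, hg, hgl, hge, -, -⟩ := hget (max J J')
  obtain ⟨i, rfl⟩ := Nat.exists_eq_add_of_le (le_trans (le_max_left J J') hn)
  obtain ⟨i', hi'⟩ := Nat.exists_eq_add_of_le (le_trans (le_max_right J J') hn)
  have m1 : J0 ≤ K ∧ L0 ≤ K := ⟨le_trans (le_max_left _ _) j2, le_trans (le_max_right _ _) j2⟩
  have m2 : J0 ≤ K' ∧ L0 ≤ K' := ⟨le_trans (le_max_left _ _) j2', le_trans (le_max_right _ _) j2'⟩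
  -- the class
  let E : Set (Pt N m) := {y | y L0 = e0}
  have hback : ∀ y ∈ E, (g⁻¹ • y) (J + i) = x (J + i) := by
    intro y hy
    have hy' : y L0 = (g • x) L0 := Eq.trans hy hge.symm
    have := hgl.inv.img0 hy'
    rwa [inv_smul_smul] at this
  have hs1 : ∀ y ∈ E, ((k * g⁻¹) • y) (K + i) = (k • x) (K + i) := by
    intro y hy
    rw [mul_smul]
    exact j3.img (hback y hy)
  have ht1 : ∀ y ∈ E, ((k' * g⁻¹) • y) (K' + i') = (k' • x) (K' + i') := by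
    intro y hy
    rw [mul_smul]
    refine j3'.img ?_
    rw [← hi']
    exact hback y hy
  refine hF (k * g⁻¹) (Subgroup.mul_mem _ hk (Subgroup.inv_mem _ hg)) (k' * g⁻¹)
    (Subgroup.mul_mem _ hk' (Subgroup.inv_mem _ hg)) (ping_pong (E := E) ⟨g • x, hge⟩ ?_ ?_ ?_)
  · intro y hy
    exact (Pt.eq_le (by omega) (hs1 y hy)).trans hke
  · intro y hy
    exact (Pt.eq_le (by omega) (ht1 y hy)).trans hke'
  · intro y hy z hz heq
    have a1 : ((k * g⁻¹) • y) J0 = (k • x) J0 := Pt.eq_le (by omega) (hs1 y hy)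
    have a2 : ((k' * g⁻¹) • z) J0 = (k' • x) J0 := Pt.eq_le (by omega) (ht1 z hz)
    rw [heq] at a1
    exact hJ0 (a1.symm.trans a2)

end

end Pool.Agent.CTm
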