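import Pool.Agent.CTm.Dyn

/-!
# Finite orbits
-/

namespace Pool.Agent.CTm

section
variable {N m : ℕ} [hN : Fact (0 < N)] [hm : Fact (2 ≤ m)] {T : Set (Gp N m)} {D : ℕ}

/-- the classes of level in `(D, 2 D]` which meet the orbit -/
def clsOf (H : Subgroup (Gp N m)) (D : ℕ) (y : Pt N m) : Set (ℕ × ℤ) :=
  {p | D < p.1 ∧ p.1 ≤ 2 * D ∧ ∃ h ∈ H, (h • y) p.1 = p.2}

theorem clsOf_finite (H : Subgroup (Gp N m)) (D : ℕ) (y : Pt N m) : (clsOf H D y).Finite := by
  refine Set.Finite.subset (s := ⋃ K ∈ Set.Iic (2 * D), (fun c : ℤ => (K, c)) ''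
      Set.Ico (0 : ℤ) (md N m K)) (Set.Finite.biUnion (Set.finite_Iic _) fun K _ =>
        (Set.finite_Ico _ _).image _) ?_
  rintro ⟨L, e⟩ ⟨h1, h2, h, hh, he⟩
  simp only at h2 he
  subst he
  simp only [Set.mem_iUnion]
  exact ⟨L, h2, _, ⟨Pt.nonneg _ _, Pt.lt _ _⟩, rfl⟩

theorem clsOf_sub {H : Subgroup (Gp N m)} {x y : Pt N m} (h : Acc H x y) :
    clsOf H D y ⊆ clsOf H D x := by
  rintro ⟨L, e⟩ ⟨h1, h2, g, hg, he⟩
  obtain ⟨g', hg', h3⟩ := h.smul hg L
  exact ⟨h1, h2, g', hg', h3.trans he⟩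

/-- the orbit of every point accumulates at a finite orbit -/
theorem Fam.acc_fin (hT : Fam T D) (hF : NoFree (Subgroup.closure T)) (x : Pt N m) :
    ∃ z, (orb (Subgroup.closure T) z).Finite ∧ Acc (Subgroup.closure T) x z := by
  by_cases hW : ∃ y, Acc (Subgroup.closure T) x y ∧
      ∀ n, 2 * D < n → InW (Subgroup.closure T) D n y
  · obtain ⟨y, ⟨hy1, hy2⟩, hmin⟩ := (measure fun y : Pt N m =>
      (clsOf (Subgroup.closure T) D y).ncard).wf.has_min {y | Acc (Subgroup.closure T) x y ∧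
        ∀ n, 2 * D < n → InW (Subgroup.closure T) D n y} hW
    by_cases hfin : (orb (Subgroup.closure T) y).Finite
    · exact ⟨y, hfin, hy1⟩
    obtain ⟨y', hy'⟩ := accum hfin
    have hyy' : Acc (Subgroup.closure T) y y' := by
      intro J
      obtain ⟨z, ⟨h, hh, rfl⟩, hz⟩ := (hy' J).nonempty
      exact ⟨h, hh, hz⟩
    by_cases hW' : ∃ y'', Acc (Subgroup.closure T) y' y'' ∧
      ∀ n, 2 * D < n → InW (Subgroup.closure T) D n y''
    · exfalso
      obtain ⟨y'', h1, h2⟩ := hW'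
      have h3 : Acc (Subgroup.closure T) y y'' := hyy'.trans h1
      have h4 := hmin y'' ⟨hy1.trans h3, h2⟩
      have h5 : clsOf (Subgroup.closure T) D y'' = clsOf (Subgroup.closure T) D y := by
        refine Set.eq_of_subset_of_ncard_le (clsOf_sub h3) ?_ (clsOf_finite _ _ _)
        exact not_lt.1 h4
      obtain ⟨L, hL1, hL2, e, he, huniq⟩ := hT.single hF hy2
      have h6 : (L, e) ∈ clsOf (Subgroup.closure T) D y'' := by
        rw [h5]
        exact ⟨hL1, hL2, he⟩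
      obtain ⟨-, -, g, hg, hge⟩ := h6
      obtain ⟨g', hg', hge'⟩ := h1.smul hg L
      obtain ⟨J, K, hJ, hK, hloc⟩ := exists_loc g' y' L
      obtain ⟨z1, ⟨⟨k1, hk1, rfl⟩, hz1⟩, z2, ⟨⟨k2, hk2, rfl⟩, hz2⟩, hne⟩ := (hy' J).nontrivial
      have b1 := hloc.img0 hz1
      have b2 := hloc.img0 hz2
      have b3 : ((g' * k1) • y) L = e := by
        rw [mul_smul]
        exact (Pt.eq_le hK b1).trans (hge'.trans hge)
      have b4 : ((g' * k2) • y) L = e := by
        rw [mul_smul]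
        exact (Pt.eq_le hK b2).trans (hge'.trans hge)
      have b5 := huniq _ (Subgroup.mul_mem _ hg' hk1) _ (Subgroup.mul_mem _ hg' hk2) b3 b4
      rw [mul_smul, mul_smul] at b5
      exact hne (smul_left_cancel _ b5)
    · push Not at hW'
      exact ⟨y', hT.finite_of_not hW', hy1.trans hyy'⟩
  · push Not at hW
    exact ⟨x, hT.finite_of_not hW, Acc.refl _ x⟩

theorem fin_smul {H : Subgroup (Gp N m)} {z : Pt N m} (hz : (orb H z).Finite) {g : Gp N m}
    (hg : g ∈ H) : (orb H (g • z)).Finite := by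
  rw [orb_smul hg]
  exact hz

theorem fin_of_smul {H : Subgroup (Gp N m)} {z : Pt N m} {g : Gp N m}
    (hg : g ∈ H) (hz : (orb H (g • z)).Finite) : (orb H z).Finite := by
  rwa [orb_smul hg] at hz

theorem contr {g : Gp N m} {z : Pt N m} {J a : ℕ} (h1 : Loc g z J (J + a)) (h2 : g • z = z)
    (d : ℕ) : g ^ d • z = z ∧ Loc (g ^ d) z J (J + d * a) := by
  induction d with
  | zero =>
    rw [pow_zero, one_smul, zero_mul, add_zero]
    exact ⟨rfl, Loc.one z J⟩
  | succ d ih =>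
    obtain ⟨i1, i2⟩ := ih
    refine ⟨by rw [pow_succ', mul_smul, i1, h2], ?_⟩
    rw [pow_succ']
    have h3 : Loc g (g ^ d • z) (J + d * a) (J + a + d * a) := by
      rw [i1]
      exact h1.up (d * a)
    have h4 := i2.mul h3
    rwa [show J + a + d * a = J + (d + 1) * a by ring] at h4

/-- no periodic points near an expanding fixed point -/
theorem iso {g : Gp N m} {z y : Pt N m} {J a d : ℕ} (h1 : Loc g z J (J + a)) (h2 : g • z = z)
    (ha : 0 < a) (hd : 0 < d) (hy : y J = z J) (hgy : g ^ d • y = y) : y = z := by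
  obtain ⟨c1, c2⟩ := contr h1 h2 d
  have hpos : 0 < d * a := Nat.mul_pos hd ha
  have key : ∀ i : ℕ, y (J + i * (d * a)) = z (J + i * (d * a)) := by
    intro i
    induction i with
    | zero => simpa using hy
    | succ i ih =>
      have h3 := c2.img ih
      rw [hgy, c1] at h3
      rwa [show J + d * a + i * (d * a) = J + (i + 1) * (d * a) by ring] at h3
  ext j
  refine Pt.eq_le ?_ (key j)
  nlinarith

theorem hyp_iso {H : Subgroup (Gp N m)} {g : Gp N m} (hg : g ∈ H) {z y : Pt N m} {J a : ℕ}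
    (h1 : Loc g z J (J + a)) (h2 : g • z = z) (ha : 0 < a) (hy : y J = z J)
    (hfin : (orb H y).Finite) : y = z := by
  have h3 : ∃ i j : ℕ, i ≠ j ∧ g ^ i • y = g ^ j • y := by
    by_contra hcon
    push Not at hcon
    have hinj : Function.Injective (fun i : ℕ => g ^ i • y) := by
      intro i j hij
      by_contra hne
      exact hcon i j hne hij
    exact Set.infinite_of_injective_forall_mem hinj
      (show ∀ i : ℕ, g ^ i • y ∈ orb H y from fun i => ⟨g ^ i, H.pow_mem hg i, rfl⟩) hfin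
  obtain ⟨i, j, hij, heq⟩ := h3
  wlog hlt : i < j generalizing i j
  · exact this j i hij.symm heq.symm (by omega)
  obtain ⟨d, rfl⟩ := Nat.exists_eq_add_of_lt hlt
  have h4 : g ^ (d + 1) • y = y := by
    rw [add_assoc, pow_add, mul_smul] at heq
    exact (smul_left_cancel _ heq).symm
  exact iso h1 h2 ha (Nat.succ_pos d) hy h4

/-- some element fixes `z` and expands or contracts there -/
def Hyp (H : Subgroup (Gp N m)) (z : Pt N m) : Prop :=
  ∃ g ∈ H, g • z = z ∧ ∃ J a, 0 < a ∧ Loc g z J (J + a)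

theorem ex_zero {H : Subgroup (Gp N m)} {z : Pt N m} (hz : ¬ Hyp H z) {g : Gp N m} (hg : g ∈ H)
    (hgz : g • z = z) {J L : ℕ} (hloc : Loc g z J L) : J = L := by
  rcases lt_trichotomy J L with h | h | h
  · obtain ⟨a, rfl⟩ := Nat.exists_eq_add_of_le h.le
    exact absurd ⟨g, hg, hgz, J, a, by omega, hloc⟩ hz
  · exact h
  · obtain ⟨a, rfl⟩ := Nat.exists_eq_add_of_le h.le
    refine absurd ⟨g⁻¹, H.inv_mem hg, by rw [inv_smul_eq_iff, hgz], L, a, by omega, ?_⟩ hz
    have := hloc.inv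
    rwa [hgz] at this

theorem ex_eq {H : Subgroup (Gp N m)} {z : Pt N m} (hz : ¬ Hyp H z) {h k : Gp N m} (hh : h ∈ H)
    (hk : k ∈ H) (hhk : h • z = k • z) {J L J' L' : ℕ} (h1 : Loc h z J L) (h2 : Loc k z J' L') :
    L + J' = L' + J := by
  have a1 := h1.up (J' + (L' + J))
  have a2 := (h2.up (J + (L + J'))).inv
  rw [← hhk, show L' + (J + (L + J')) = L + (J' + (L' + J)) by ring] at a2
  have a3 := a1.mul a2
  have a4 := ex_zero hz (H.mul_mem (H.inv_mem hk) hh)
    (by rw [mul_smul, hhk, inv_smul_smul]) a3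
  omega

/-- finite orbits without expansion -/
theorem Fam.type0 (hT : Fam T D) {z : Pt N m} (hfin : (orb (Subgroup.closure T) z).Finite)
    (hz : ¬ Hyp (Subgroup.closure T) z) :
    ∃ J, (∀ h ∈ Subgroup.closure T, h • z = z → ∀ y : Pt N m, y J = z J → h • y = y) ∧
      ∀ y : Pt N m, y J = z J → (orb (Subgroup.closure T) y).Finite := by
  -- choose elements for the points of the orbit
  have h1 : ∀ w ∈ orb (Subgroup.closure T) z, ∃ k ∈ Subgroup.closure T, k • z = w ∧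
      ∃ J L, Loc k z J L := by
    rintro w ⟨k, hk, rfl⟩
    obtain ⟨J, L, -, -, h2⟩ := exists_loc k z 0
    exact ⟨k, hk, rfl, J, L, h2⟩
  choose! k hk hkz Jw Lw hkl using h1
  obtain ⟨B, hB⟩ : ∃ B, ∀ w ∈ orb (Subgroup.closure T) z, Jw w ≤ B := by
    obtain ⟨B, hB⟩ := (hfin.image Jw).bddAbove
    exact ⟨B, fun w hw => hB ⟨w, hw, rfl⟩⟩
  have h2 : ∀ h ∈ Subgroup.closure T, ∃ L, Loc h z (B + D) L := by
    intro h hh
    have key : h ∈ Subgroup.closure T ∧ ∃ L, Loc h z (B + D) L := by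
      refine hT.induct (P := fun h => h ∈ Subgroup.closure T ∧ ∃ L, Loc h z (B + D) L)
        ⟨Subgroup.one_mem _, B + D, Loc.one z _⟩ ?_ hh
      rintro s hs h ⟨h0, L, hloc⟩
      have hw : h • z ∈ orb (Subgroup.closure T) z := ⟨h, h0, rfl⟩
      have h3 := ex_eq hz h0 (hk _ hw) (hkz _ hw).symm hloc (hkl _ hw)
      have h4 := hB _ hw
      obtain ⟨K, k1, k2, k3⟩ := hT.aff s hs (h • z) L (by omega)
      exact ⟨Subgroup.mul_mem _ (Subgroup.subset_closure hs) h0, K, hloc.mul k3⟩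
    exact key.2
  have h3 : ∀ h ∈ Subgroup.closure T, h • z = z → ∀ y : Pt N m, y (B + D) = z (B + D) →
      h • y = y := by
    intro h hh hhz y hy
    obtain ⟨L, hL⟩ := h2 h hh
    obtain rfl := ex_zero hz hh hhz hL
    exact hL.fix (by rw [hhz]) hy
  refine ⟨B + D, h3, fun y hy => ?_⟩
  refine (hfin.image fun w => k w • y).subset ?_
  rintro v ⟨h, hh, rfl⟩
  have hw : h • z ∈ orb (Subgroup.closure T) z := ⟨h, hh, rfl⟩
  refine ⟨h • z, hw, ?_⟩
  have h4 := h3 (h⁻¹ * k (h • z)) (Subgroup.mul_mem _ (Subgroup.inv_mem _ hh) (hk _ hw))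
    (by rw [mul_smul, hkz _ hw, inv_smul_smul]) y hy
  rw [mul_smul, inv_smul_eq_iff] at h4
  exact h4

/-- the good level of a finite orbit -/
theorem Fam.good (hT : Fam T D) {w : Pt N m} (hfin : (orb (Subgroup.closure T) w).Finite) :
    ∃ J, ∀ h ∈ Subgroup.closure T, h • w = w → ∀ z : Pt N m,
      (orb (Subgroup.closure T) z).Finite → z J = w J → h • z = z := by
  by_cases hz : Hyp (Subgroup.closure T) w
  · obtain ⟨g, hg, hgw, J, a, ha, hloc⟩ := hz
    refine ⟨J, fun h hh hhw z hzf hzJ => ?_⟩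
    rw [hyp_iso hg hloc hgw ha hzJ hzf, hhw]
  · obtain ⟨J, h1, -⟩ := hT.type0 hfin hz
    exact ⟨J, fun h hh hhw z _ hzJ => h1 h hh hhw z hzJ⟩

/-- the pointwise stabiliser of all finite orbits -/
def fixA (H : Subgroup (Gp N m)) : Subgroup (Gp N m) where
  carrier := {h | h ∈ H ∧ ∀ z, (orb H z).Finite → h • z = z}
  one_mem' := ⟨H.one_mem, fun z _ => one_smul _ z⟩
  mul_mem' := by
    rintro a b ⟨a1, a2⟩ ⟨b1, b2⟩
    exact ⟨H.mul_mem a1 b1, fun z hz => by rw [mul_smul, b2 z hz, a2 z hz]⟩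
  inv_mem' := by
    rintro a ⟨a1, a2⟩
    exact ⟨H.inv_mem a1, fun z hz => by rw [inv_smul_eq_iff, a2 z hz]⟩

theorem fixA_le (H : Subgroup (Gp N m)) : fixA H ≤ H := fun _ h => h.1

theorem fixA_conj {H : Subgroup (Gp N m)} {a h : Gp N m} (ha : a ∈ fixA H) (hh : h ∈ H) :
    h * a * h⁻¹ ∈ fixA H := by
  refine ⟨H.mul_mem (H.mul_mem hh ha.1) (H.inv_mem hh), fun z hz => ?_⟩
  rw [mul_smul, mul_smul, ha.2 _ (fin_smul hz (H.inv_mem hh)), smul_inv_smul]

/-- the stabiliser of all finite orbits has finite index -/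
theorem Fam.finiteIndex (hT : Fam T D) (hF : NoFree (Subgroup.closure T)) :
    ((fixA (Subgroup.closure T)).subgroupOf (Subgroup.closure T)).FiniteIndex := by
  obtain ⟨J, hJ⟩ := unif (P := fun J (x : Pt N m) => ∃ p : Pt N m,
      (orb (Subgroup.closure T) p).Finite ∧ ∀ h ∈ Subgroup.closure T, h • p = p →
        ∀ z : Pt N m, (orb (Subgroup.closure T) z).Finite → z J = x J → h • z = z)
    (by
      rintro J J' x x' hJ hx ⟨p, hp1, hp2⟩
      exact ⟨p, hp1, fun h hh hhp z hz hzJ => hp2 h hh hhp z hz ((Pt.eq_le hJ hzJ).trans hx)⟩)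
    (by
      intro x
      obtain ⟨w, hw, hacc⟩ := hT.acc_fin hF x
      obtain ⟨Jw, hJw⟩ := hT.good hw
      obtain ⟨g, hg, hgx⟩ := hacc Jw
      obtain ⟨J, L, hJ, hL, hloc⟩ := exists_loc g x Jw
      refine ⟨J, g⁻¹ • w, fin_smul hw (Subgroup.inv_mem _ hg), fun h hh hhp z hz hzJ => ?_⟩
      have h1 : (g • z) Jw = w Jw := (Pt.eq_le hL (hloc.img0 hzJ)).trans hgx
      have h2 : (g * h * g⁻¹) • w = w := by
        rw [mul_smul, mul_smul, hhp, smul_inv_smul]
      have h3 := hJw (g * h * g⁻¹) (Subgroup.mul_mem _ (Subgroup.mul_mem _ hg hh)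
        (Subgroup.inv_mem _ hg)) h2 (g • z) (fin_smul hz hg) h1
      rw [mul_smul, mul_smul, inv_smul_smul] at h3
      exact smul_left_cancel _ h3)
  -- finitely many classes
  have hfinι : Finite {c : ℤ // ∃ x : Pt N m, x J = c} := by
    refine Set.Finite.subset (Set.finite_Ico (0 : ℤ) (md N m J)) ?_
    rintro c ⟨x, rfl⟩
    exact ⟨x.nonneg J, x.lt J⟩
  choose p hp1 hp2 using hJ
  have hst : ∀ c : {c : ℤ // ∃ x : Pt N m, x J = c},
      (MulAction.stabilizer (Subgroup.closure T) (p c.2.choose)).FiniteIndex := by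
    intro c
    constructor
    rw [MulAction.index_stabilizer]
    have h1 : MulAction.orbit (Subgroup.closure T) (p c.2.choose) =
        orb (Subgroup.closure T) (p c.2.choose) := by
      ext y
      constructor
      · rintro ⟨h, rfl⟩
        exact ⟨h.1, h.2, rfl⟩
      · rintro ⟨h, hh, rfl⟩
        exact ⟨⟨h, hh⟩, rfl⟩
    rw [h1]
    exact Set.ncard_ne_zero_of_mem (mem_orb_self _ _) (hp1 _)
  have h2 := Subgroup.finiteIndex_iInf hst
  refine Subgroup.finiteIndex_of_le (H := ⨅ c : {c : ℤ // ∃ x : Pt N m, x J = c},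
    MulAction.stabilizer (Subgroup.closure T) (p c.2.choose)) ?_
  intro h hh
  rw [Subgroup.mem_iInf] at hh
  rw [Subgroup.mem_subgroupOf]
  refine ⟨h.2, fun z hz => ?_⟩
  have h3 := hh ⟨z J, z, rfl⟩
  rw [MulAction.mem_stabilizer_iff] at h3
  have hex : ∃ x : Pt N m, x J = z J := ⟨z, rfl⟩
  exact hp2 hex.choose h.1 h.2 h3 z hz hex.choose_spec.symm

/-- the stabiliser of all finite orbits is abelian -/
theorem Fam.abelian (hT : Fam T D) (hF : NoFree (Subgroup.closure T)) :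
    ∀ a ∈ fixA (Subgroup.closure T), ∀ b ∈ fixA (Subgroup.closure T), a * b = b * a := by
  intro a ha b hb
  by_contra hne
  have hk : a * b * a⁻¹ * b⁻¹ ≠ 1 := by
    intro h
    apply hne
    rw [mul_inv_eq_one, mul_inv_eq_iff_eq_mul] at h
    exact h
  obtain ⟨x, hx⟩ : ∃ x : Pt N m, (a * b * a⁻¹ * b⁻¹) • x ≠ x := by
    by_contra hcon
    push Not at hcon
    exact hk (faithful hcon)
  have hkA : a * b * a⁻¹ * b⁻¹ ∈ fixA (Subgroup.closure T) :=
    Subgroup.mul_mem _ (Subgroup.mul_mem _ (Subgroup.mul_mem _ ha hb) (Subgroup.inv_mem _ ha))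
      (Subgroup.inv_mem _ hb)
  obtain ⟨z, hz, hacc⟩ := hT.acc_fin hF x
  by_cases hhyp : Hyp (Subgroup.closure T) z
  · obtain ⟨g, hg, hgz, J, c, hc, hloc⟩ := hhyp
    obtain ⟨h, hh, hhx⟩ := hacc J
    -- the conjugates
    have ha' := fixA_conj ha hh
    have hb' := fixA_conj hb hh
    have hkA' := fixA_conj hkA hh
    have hcomm : h * (a * b * a⁻¹ * b⁻¹) * h⁻¹ =
        (h * a * h⁻¹) * (h * b * h⁻¹) * (h * a * h⁻¹)⁻¹ * (h * b * h⁻¹)⁻¹ := by group
    -- exponents of a commutator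
    have hex : ∀ u ∈ fixA (Subgroup.closure T), ∀ v ∈ fixA (Subgroup.closure T),
        ∃ J', Loc (u * v * u⁻¹ * v⁻¹) z J' J' := by
      intro u hu v hv
      have huz := hu.2 z hz
      have hvz := hv.2 z hz
      obtain ⟨D1, h1⟩ := loc_ex u
      obtain ⟨D2, h2⟩ := loc_ex v
      obtain ⟨P, p1, p2, p3⟩ := h1 z D1 le_rfl
      obtain ⟨Q, q1, q2, q3⟩ := h2 z D2 le_rfl
      -- levels: `v⁻¹ : Q → D2`, `u⁻¹ : P → D1`, `v : D2 → Q`, `u : D1 → P`
      have e1 : Loc v⁻¹ z (Q + (P + D1 + D2)) (D2 + (P + D1 + D2)) := by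
        have := (q3.up (P + D1 + D2)).inv
        rwa [hvz] at this
      have e2 : Loc u⁻¹ z (P + (2 * D2 + D1)) (D1 + (2 * D2 + D1)) := by
        have := (p3.up (2 * D2 + D1)).inv
        rwa [huz] at this
      have e3 : Loc v z (D2 + (D2 + 2 * D1)) (Q + (D2 + 2 * D1)) := q3.up _
      have e4 : Loc u z (D1 + (Q + D2 + D1)) (P + (Q + D2 + D1)) := p3.up _
      refine ⟨Q + (P + D1 + D2), ?_⟩
      have huz' : u⁻¹ • z = z := by rw [inv_smul_eq_iff, huz]
      have hvz' : v⁻¹ • z = z := by rw [inv_smul_eq_iff, hvz]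
      have f1 : Loc (u⁻¹ * v⁻¹) z (Q + (P + D1 + D2)) (D1 + (2 * D2 + D1)) := by
        refine Loc.mul (L := D2 + (P + D1 + D2)) e1 ?_
        rw [hvz', show D2 + (P + D1 + D2) = P + (2 * D2 + D1) by ring]
        exact e2
      have f2 : Loc (v * (u⁻¹ * v⁻¹)) z (Q + (P + D1 + D2)) (Q + (D2 + 2 * D1)) := by
        refine Loc.mul f1 ?_
        rw [mul_smul, hvz', huz', show D1 + (2 * D2 + D1) = D2 + (D2 + 2 * D1) by ring]
        exact e3
      have f3 : Loc (u * (v * (u⁻¹ * v⁻¹))) z (Q + (P + D1 + D2)) (P + (Q + D2 + D1)) := by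
        refine Loc.mul f2 ?_
        rw [mul_smul, mul_smul, hvz', huz', hvz,
          show Q + (D2 + 2 * D1) = D1 + (Q + D2 + D1) by ring]
        exact e4
      rw [show u * v * u⁻¹ * v⁻¹ = u * (v * (u⁻¹ * v⁻¹)) by group]
      rw [show P + (Q + D2 + D1) = Q + (P + D1 + D2) by ring] at f3
      exact f3
    obtain ⟨J', hJ'⟩ := hex _ ha' _ hb'
    rw [← hcomm] at hJ'
    set k' := h * (a * b * a⁻¹ * b⁻¹) * h⁻¹ with hk'
    have hk'z : k' • z = z := hkA'.2 z hz
    have hfix : ∀ y : Pt N m, y J' = z J' → k' • y = y :=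
      fun y hy => hJ'.fix (by rw [hk'z]) hy
    -- the point which is moved
    have hky : k' • (h • x) ≠ h • x := by
      intro he
      rw [hk', mul_smul, mul_smul, inv_smul_smul] at he
      exact hx (smul_left_cancel _ he)
    have hyz : h • x ≠ z := by
      intro he
      rw [he] at hky
      exact hky hk'z
    obtain ⟨c1, c2⟩ := contr hloc hgz (J' + 1)
    have hc' : J' ≤ J + (J' + 1) * c := by nlinarith
    have hinj : (g ^ (J' + 1)) • (h • x) ≠ z := by
      intro he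
      rw [← c1] at he
      exact hyz (smul_left_cancel _ he)
    have hU : ∀ y ∈ {y : Pt N m | y J = z J}, (g ^ (J' + 1)) • y ∈ {y : Pt N m | y J = z J} := by
      intro y hy
      have := c2.img0 hy
      rw [c1] at this
      exact Pt.eq_le (by omega) this
    refine hF _ (Subgroup.pow_mem _ hg (J' + 1)) _
      (Subgroup.mul_mem _ (Subgroup.pow_mem _ hg (J' + 1)) hkA'.1)
      (lemE (U := {y : Pt N m | y J = z J}) hU ?_ (y := h • x) hhx hky ?_)
    · intro y hy
      refine hfix _ ?_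
      have := c2.img0 hy
      rw [c1] at this
      exact Pt.eq_le hc' this
    · intro i hi he
      refine hinj (iso (d := (J' + 1) * i) hloc hgz hc (by positivity) (hU _ hhx) ?_)
      rw [pow_mul]
      exact he
  · obtain ⟨J, -, h2⟩ := hT.type0 hz hhyp
    obtain ⟨h, hh, hhx⟩ := hacc J
    exact hx (hkA.2 x (fin_of_smul hh (h2 _ hhx)))

end

end Pool.Agent.CTm
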