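import Pool.Agent.CTm.Semi

/-!
# Growth
-/

namespace Pool.Agent.CTm

open Filter Topology

section
variable {G : Type*} [Group G]

theorem ball_mono {S : Set G} {a b : ℕ} (h : a ≤ b) : ball S a ⊆ ball S b := by
  rintro g ⟨l, h1, h2, h3⟩
  exact ⟨l, h1.trans h, h2, h3⟩

theorem ball_mul {S : Set G} {a b : ℕ} {g h : G} (hg : g ∈ ball S a) (hh : h ∈ ball S b) :
    g * h ∈ ball S (a + b) := by
  obtain ⟨l, h1, h2, rfl⟩ := hg
  obtain ⟨l', h1', h2', rfl⟩ := hh
  refine ⟨l ++ l', by rw [List.length_append]; omega, ?_, by rw [List.prod_append]⟩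
  intro x hx
  rcases List.mem_append.1 hx with hx | hx
  · exact h2 x hx
  · exact h2' x hx

theorem ball_finite {S : Set G} (hS : S.Finite) (n : ℕ) : (ball S n).Finite := by
  have hU : {x : G | x ∈ S ∨ x⁻¹ ∈ S}.Finite := by
    have h1 : {x : G | x ∈ S ∨ x⁻¹ ∈ S} = S ∪ S⁻¹ := by
      ext x
      simp
    rw [h1]
    exact hS.union hS.inv
  induction n with
  | zero =>
    refine (Set.finite_singleton (1 : G)).subset ?_
    rintro g ⟨l, h1, h2, rfl⟩
    have : l = [] := List.eq_nil_of_length_eq_zero (by omega)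
    rw [this]
    simp
  | succ n ih =>
    refine Set.Finite.subset (s := {(1 : G)} ∪ Set.image2 (fun a b => a * b)
      {x : G | x ∈ S ∨ x⁻¹ ∈ S} (ball S n)) ((Set.finite_singleton _).union
        (hU.image2 _ ih)) ?_
    rintro g ⟨l, h1, h2, rfl⟩
    cases l with
    | nil => left; simp
    | cons x l =>
      right
      refine ⟨x, h2 x (by simp), l.prod, ⟨l, ?_, ?_, rfl⟩, by simp⟩
      · simp only [List.length_cons] at h1
        omega
      · exact fun y hy => h2 y (by simp [hy])

theorem mem_ball_of_closure {S : Set G} {g : G} (hg : g ∈ Subgroup.closure S) :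
    ∃ n, g ∈ ball S n := by
  induction hg using Subgroup.closure_induction with
  | mem x hx => exact ⟨1, [x], by simp, by simpa using Or.inl hx, by simp⟩
  | one => exact ⟨0, [], by simp, by simp, rfl⟩
  | mul x y _ _ hx hy =>
    obtain ⟨a, ha⟩ := hx
    obtain ⟨b, hb⟩ := hy
    exact ⟨a + b, ball_mul ha hb⟩
  | inv x _ hx =>
    obtain ⟨a, l, h1, h2, rfl⟩ := hx
    refine ⟨a, (l.map fun y => y⁻¹).reverse, by simpa using h1, ?_, ?_⟩
    · intro y hy
      rw [List.mem_reverse, List.mem_map] at hy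
      obtain ⟨z, hz, rfl⟩ := hy
      rcases h2 z hz with h3 | h3
      · right
        rwa [inv_inv]
      · left
        exact h3
    · rw [List.prod_inv_reverse]

theorem growth_mono {S : Set G} (hS : S.Finite) {a b : ℕ} (h : a ≤ b) :
    growth S a ≤ growth S b := Set.ncard_le_ncard (ball_mono h) (ball_finite hS b)

theorem wd_ball {S : Set G} {s t : G} {l0 : ℕ} (hs : s ∈ ball S l0) (ht : t ∈ ball S l0)
    (l : List Bool) : wd s t l ∈ ball S (l0 * l.length) := by
  induction l with
  | nil => exact ⟨[], by simp, by simp, rfl⟩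
  | cons b l ih =>
    rw [wd_cons, List.length_cons, show l0 * (l.length + 1) = l0 + l0 * l.length by ring]
    cases b with
    | true => exact ball_mul hs ih
    | false => exact ball_mul ht ih

theorem growth_two_pow {S : Set G} (hS : S.Finite) {s t : G} (hst : FreePair s t) {l0 : ℕ}
    (hs : s ∈ ball S l0) (ht : t ∈ ball S l0) (k : ℕ) : 2 ^ k ≤ growth S (l0 * k) := by
  let f : (Fin k → Bool) → G := fun v => wd s t (List.ofFn v)
  have hf : Function.Injective f := by
    intro v w hvw
    exact List.ofFn_injective (freePair_wd hst hvw)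
  have h1 : Set.range f ⊆ ball S (l0 * k) := by
    rintro _ ⟨v, rfl⟩
    have := wd_ball hs ht (List.ofFn v)
    rwa [List.length_ofFn] at this
  have h2 := Set.ncard_le_ncard h1 (ball_finite hS _)
  rw [← Set.image_univ, Set.ncard_image_of_injective _ hf, Set.ncard_univ] at h2
  simpa [growth] using h2

/-- a free subsemigroup gives exponential growth -/
theorem exp_growth {S : Set G} (hS : S.Finite) {s t : G} (hs : s ∈ Subgroup.closure S)
    (ht : t ∈ Subgroup.closure S) (hst : FreePair s t) :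
    ∃ c : ℝ, 1 < c ∧ ∀ᶠ n : ℕ in atTop, c ^ n ≤ growth S n := by
  obtain ⟨a, ha⟩ := mem_ball_of_closure hs
  obtain ⟨b, hb⟩ := mem_ball_of_closure ht
  obtain ⟨l0, hl0, hs', ht'⟩ : ∃ l0, 0 < l0 ∧ s ∈ ball S l0 ∧ t ∈ ball S l0 :=
    ⟨a + b + 1, by omega, ball_mono (by omega) ha, ball_mono (by omega) hb⟩
  have hl0' : (0 : ℝ) < 2 * l0 := by positivity
  have hc1 : (1 : ℝ) < (2 : ℝ) ^ ((1 : ℝ) / (2 * l0)) :=
    Real.one_lt_rpow (by norm_num) (by positivity)
  have hc2 : ((2 : ℝ) ^ ((1 : ℝ) / (2 * l0))) ^ (2 * l0) = 2 := by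
    rw [← Real.rpow_natCast, ← Real.rpow_mul (by norm_num)]
    have : (1 : ℝ) / (2 * l0) * ((2 * l0 : ℕ) : ℝ) = 1 := by
      push_cast
      field_simp
    rw [this, Real.rpow_one]
  refine ⟨_, hc1, ?_⟩
  filter_upwards [eventually_ge_atTop l0] with n hn
  have h1 : 1 ≤ n / l0 := (Nat.one_le_div_iff hl0).2 hn
  have h2 : n ≤ 2 * l0 * (n / l0) := by
    have h3 := Nat.div_add_mod n l0
    have h4 := Nat.mod_lt n hl0
    nlinarith
  have h3 : l0 * (n / l0) ≤ n := Nat.mul_div_le n l0
  calc ((2 : ℝ) ^ ((1 : ℝ) / (2 * l0))) ^ n ≤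
      ((2 : ℝ) ^ ((1 : ℝ) / (2 * l0))) ^ (2 * l0 * (n / l0)) :=
        pow_le_pow_right₀ hc1.le h2
    _ = 2 ^ (n / l0) := by rw [pow_mul, hc2]
    _ ≤ growth S (l0 * (n / l0)) := by
        have := growth_two_pow hS hst hs' ht' (n / l0)
        exact_mod_cast this
    _ ≤ growth S n := by
        have := growth_mono hS h3
        exact_mod_cast this

theorem not_intermediate_of_exp {S : Set G}
    (h : ∃ c : ℝ, 1 < c ∧ ∀ᶠ n : ℕ in atTop, c ^ n ≤ growth S n) : ¬ IntermediateGrowth S := by
  rintro ⟨-, h2⟩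
  obtain ⟨c, hc, h1⟩ := h
  have h3 : ∀ᶠ n : ℕ in atTop, c ≤ (growth S n : ℝ) ^ (1 / (n : ℝ)) := by
    filter_upwards [h1, eventually_gt_atTop 0] with n hn hn0
    have hn0' : (n : ℝ) ≠ 0 := by exact_mod_cast hn0.ne'
    calc c = (c ^ n) ^ (1 / (n : ℝ)) := by
          rw [← Real.rpow_natCast, ← Real.rpow_mul (by linarith), mul_one_div_cancel hn0',
            Real.rpow_one]
      _ ≤ _ := Real.rpow_le_rpow (by positivity) hn (by positivity)
  have h4 := ge_of_tendsto h2 h3
  linarith

/-- the number of products of commuting elements -/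
theorem comm_count {A : Type*} [CommGroup A] [DecidableEq A] (B : Finset A) (k : ℕ) :
    ∃ f : (B → Fin (k + 1)) → A, ∀ l : List A, (∀ x ∈ l, x ∈ B) → l.length ≤ k →
      l.prod ∈ Set.range f := by
  refine ⟨fun e => ∏ i : B, (i : A) ^ (e i : ℕ), fun l h1 h2 => ?_⟩
  refine ⟨fun i => ⟨l.count (i : A), ?_⟩, ?_⟩
  · have := List.count_le_length (a := (i : A)) (l := l)
    omega
  · simp only
    rw [Finset.prod_list_count_of_subset l B (fun x hx => h1 x (List.mem_toFinset.1 hx))]
    exact Finset.prod_coe_sort B (fun i => i ^ l.count i)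

/-- a finite index abelian subgroup gives polynomial growth -/
theorem poly_growth (S : Finset G) (A : Subgroup G)
    (hfi : (A.subgroupOf (Subgroup.closure (S : Set G))).FiniteIndex)
    (hc : ∀ a ∈ A, ∀ b ∈ A, a * b = b * a) :
    ∃ C d : ℕ, ∀ n : ℕ, 1 ≤ n → growth (S : Set G) n ≤ C * n ^ d := by
  classical
  set H := Subgroup.closure (S : Set G) with hH
  letI : CommGroup A := { (inferInstance : Group A) with
    mul_comm := fun a b => Subtype.ext (hc a a.2 b b.2) }
  haveI : Finite (H ⧸ A.subgroupOf H) := Subgroup.finite_quotient_of_finiteIndex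
  let Q := H ⧸ A.subgroupOf H
  -- the decomposition
  have hdec : ∀ h : H, ∃ a : A, (h : G) = ((QuotientGroup.mk h : Q).out : G) * (a : G) := by
    intro h
    have h1 : ((QuotientGroup.mk h : Q).out)⁻¹ * h ∈ A.subgroupOf H := by
      rw [← QuotientGroup.eq]
      exact Quotient.out_eq _
    rw [Subgroup.mem_subgroupOf] at h1
    refine ⟨⟨_, h1⟩, ?_⟩
    simp
  choose al hal using hdec
  let U : Set H := {x : H | (x : G) ∈ S ∨ (x : G)⁻¹ ∈ S}
  have hU : U.Finite := by
    have h0 : {x : G | x ∈ (S : Set G) ∨ x⁻¹ ∈ (S : Set G)}.Finite := by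
      have h1 : {x : G | x ∈ (S : Set G) ∨ x⁻¹ ∈ (S : Set G)} = (S : Set G) ∪ (S : Set G)⁻¹ := by
        ext x
        simp
      rw [h1]
      exact S.finite_toSet.union S.finite_toSet.inv
    exact Set.Finite.preimage (Subtype.coe_injective.injOn) h0
  have hB : (insert (al 1) (Set.image2 (fun (x : H) (q : Q) => al (x * q.out)) U Set.univ)).Finite :=
    (hU.image2 _ Set.finite_univ).insert _
  let B : Finset A := hB.toFinset
  have hB1 : al 1 ∈ B := by simp [B]
  have hB2 : ∀ x ∈ U, ∀ q : Q, al (x * q.out) ∈ B := by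
    intro x hx q
    rw [Set.Finite.mem_toFinset]
    exact Set.mem_insert_of_mem _ ⟨x, hx, q, Set.mem_univ _, rfl⟩
  have key : ∀ l : List H, (∀ x ∈ l, x ∈ U) → ∃ q : Q, ∃ l' : List A, (∀ x ∈ l', x ∈ B) ∧
      l'.length ≤ l.length + 1 ∧ ((l.prod : H) : G) = (q.out : G) * ((l'.prod : A) : G) := by
    intro l
    induction l with
    | nil =>
      intro _
      exact ⟨_, [al 1], by simpa using hB1, by simp, by
        rw [List.prod_nil, List.prod_singleton]
        exact hal 1⟩
    | cons x l ih =>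
      intro hl
      obtain ⟨q, l', i1, i2, i3⟩ := ih fun y hy => hl y (by simp [hy])
      have hx := hl x (by simp)
      refine ⟨(QuotientGroup.mk (x * q.out) : Q), al (x * q.out) :: l', ?_,
        by simp only [List.length_cons]; omega, ?_⟩
      rotate_left
      · rw [List.prod_cons, List.prod_cons, Subgroup.coe_mul, i3, ← mul_assoc]
        have h1 := hal (x * q.out)
        rw [Subgroup.coe_mul] at h1
        rw [h1, mul_assoc]
        rfl
      · intro y hy
        rcases List.mem_cons.1 hy with rfl | hy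
        · exact hB2 x hx q
        · exact i1 y hy
  refine ⟨Nat.card Q * 3 ^ B.card, B.card, fun n hn => ?_⟩
  obtain ⟨f, hf⟩ := comm_count B (n + 1)
  have hsub : ball (S : Set G) n ⊆ Set.range (fun p : Q × (B → Fin (n + 1 + 1)) =>
      (p.1.out : G) * ((f p.2 : A) : G)) := by
    rintro g ⟨l, h1, h2, rfl⟩
    -- lift the list to `H`
    have hlift : ∃ l1 : List H, l1.map (fun x : H => (x : G)) = l ∧ ∀ x ∈ l1, x ∈ U := by
      clear h1
      induction l with
      | nil => exact ⟨[], rfl, by simp⟩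
      | cons x l ih =>
        obtain ⟨l1, j1, j2⟩ := ih fun y hy => h2 y (by simp [hy])
        have hx := h2 x (by simp)
        have hxH : x ∈ H := by
          rcases hx with hx | hx
          · exact Subgroup.subset_closure hx
          · exact (Subgroup.inv_mem_iff _).1 (Subgroup.subset_closure hx)
        refine ⟨⟨x, hxH⟩ :: l1, by simp [j1], ?_⟩
        intro y hy
        rcases List.mem_cons.1 hy with rfl | hy
        · exact hx
        · exact j2 y hy
    obtain ⟨l1, j1, j2⟩ := hlift
    obtain ⟨q, l', k1, k2, k3⟩ := key l1 j2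
    have hlen : l1.length = l.length := by rw [← j1, List.length_map]
    obtain ⟨e, he⟩ := hf l' k1 (by omega)
    refine ⟨(q, e), ?_⟩
    simp only
    rw [he, ← k3, ← j1]
    exact Subgroup.val_list_prod H l1
  have h1 : growth (S : Set G) n ≤ Nat.card (Q × (B → Fin (n + 1 + 1))) := by
    have h2 := Set.ncard_le_ncard hsub (Set.finite_range _)
    refine h2.trans ?_
    rw [← Set.image_univ, ← Set.ncard_univ]
    exact Set.ncard_image_le Set.finite_univ
  refine h1.trans ?_
  rw [Nat.card_prod, Nat.card_fun]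
  simp only [Nat.card_eq_fintype_card, Fintype.card_fin, Fintype.card_coe]
  rw [mul_assoc, ← mul_pow]
  refine Nat.mul_le_mul_left _ (Nat.pow_le_pow_left (by omega) _)

theorem not_intermediate_of_poly {S : Set G}
    (h : ∃ C d : ℕ, ∀ n : ℕ, 1 ≤ n → growth S n ≤ C * n ^ d) : ¬ IntermediateGrowth S :=
  fun h2 => h2.1 h

end

end Pool.Agent.CTm
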