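import Pool.Agent.CTm.FinOrb
import Pool.Agent.CTm.Growth

/-!
# The main theorem
-/

namespace Pool.Agent.CTm

open Filter Topology

theorem sign_class {f : Equiv.Perm ℤ} (hf : IsClassTransposition f) (n : ℤ) :
    0 ≤ f n ↔ 0 ≤ n := by
  obtain ⟨r1, m1, r2, m2, a1, a2, b1, b2, -, h1, h2⟩ := hf
  have key : ∀ r M : ℤ, 0 ≤ r → r < M → ∀ k : ℤ, 0 ≤ r + k * M ↔ 0 ≤ k := by
    intro r M hr hM k
    constructor
    · intro h
      by_contra hk
      have : k ≤ -1 := by omega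
      nlinarith
    · intro h
      have hM' : 0 < M := lt_of_le_of_lt hr hM
      positivity
  by_cases c1 : ∃ k : ℤ, n = r1 + k * m1
  · obtain ⟨k, rfl⟩ := c1
    rw [(h1 k).1, key r2 m2 b1 b2, key r1 m1 a1 a2]
  · by_cases c2 : ∃ k : ℤ, n = r2 + k * m2
    · obtain ⟨k, rfl⟩ := c2
      rw [(h1 k).2, key r2 m2 b1 b2, key r1 m1 a1 a2]
    · push Not at c1 c2
      rw [h2 n c1 c2]

theorem sign_CT {f : Equiv.Perm ℤ} (hf : f ∈ CT) : ∀ n : ℤ, 0 ≤ f n ↔ 0 ≤ n := by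
  induction hf using Subgroup.closure_induction with
  | mem x hx => exact sign_class hx
  | one => exact fun n => Iff.rfl
  | mul x y _ _ hx hy => exact fun n => by rw [Equiv.Perm.mul_apply, hx, hy]
  | inv x _ hx => exact fun n => by rw [← hx, ap_inv]

/-- uniform bound for the exponents -/
theorem slope_bound {m : ℕ} {f : Equiv.Perm ℤ} {M : ℤ} (hM : 0 < M)
    (h : ∀ n : ℤ, ∃ a b : ℕ, ∀ k : ℤ, (m : ℤ) ^ a * (f (n + M * k) - f n) = (m : ℤ) ^ b * (M * k)) :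
    ∃ B : ℕ, ∀ n : ℤ, ∃ a b : ℕ, a ≤ B ∧ b ≤ B ∧
      ∀ k : ℤ, (m : ℤ) ^ a * (f (n + M * k) - f n) = (m : ℤ) ^ b * (M * k) := by
  choose a b hab using h
  refine ⟨(Finset.Ico 0 M).sup fun r => a r + b r, fun n => ⟨a (n % M), b (n % M), ?_, ?_, ?_⟩⟩
  · have h1 := Finset.le_sup (s := Finset.Ico 0 M) (f := fun r => a r + b r)
      (b := n % M) (Finset.mem_Ico.2 ⟨Int.emod_nonneg _ hM.ne', Int.emod_lt_of_pos _ hM⟩)
    omega
  · have h1 := Finset.le_sup (s := Finset.Ico 0 M) (f := fun r => a r + b r)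
      (b := n % M) (Finset.mem_Ico.2 ⟨Int.emod_nonneg _ hM.ne', Int.emod_lt_of_pos _ hM⟩)
    omega
  · intro k
    have h1 := hab (n % M) (n / M)
    have h2 := hab (n % M) (n / M + k)
    have e1 : n % M + M * (n / M) = n := Int.emod_add_mul_ediv n M
    have e2 : n % M + M * (n / M + k) = n + M * k := by linarith
    rw [e1] at h1
    rw [e2] at h2
    have e3 : f (n + M * k) - f n = (f (n + M * k) - f (n % M)) - (f n - f (n % M)) := by ring
    rw [e3, mul_sub, h1, h2]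
    ring

theorem slope_aff {m : ℕ} (hm : 2 ≤ m) {f : Equiv.Perm ℤ} {M : ℤ} {N : ℕ} (hMN : M ∣ (N : ℤ))
    {B : ℕ} (h : ∀ n : ℤ, ∃ a b : ℕ, a ≤ B ∧ b ≤ B ∧
      ∀ k : ℤ, (m : ℤ) ^ a * (f (n + M * k) - f n) = (m : ℤ) ^ b * (M * k)) (n : ℤ) (J : ℕ)
    (hJ : B ≤ J) : ∃ L : ℕ, L ≤ J + B ∧ J ≤ L + B ∧ Aff N m f J L n := by
  obtain ⟨t, ht⟩ := hMN
  obtain ⟨a, b, ha, hb, hab⟩ := h n
  refine ⟨J + b - a, by omega, by omega, fun k => ?_⟩
  have h1 := hab (t * (m : ℤ) ^ J * k)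
  have hm0 : (m : ℤ) ^ a ≠ 0 := pow_ne_zero _ (by positivity)
  have e1 : M * (t * (m : ℤ) ^ J * k) = (N : ℤ) * (m : ℤ) ^ J * k := by rw [ht]; ring
  rw [e1] at h1
  have e2 : (m : ℤ) ^ b * ((N : ℤ) * (m : ℤ) ^ J * k) =
      (m : ℤ) ^ a * ((N : ℤ) * (m : ℤ) ^ (J + b - a) * k) := by
    have : (m : ℤ) ^ b * (m : ℤ) ^ J = (m : ℤ) ^ a * (m : ℤ) ^ (J + b - a) := by
      rw [← pow_add, ← pow_add]
      congr 1
      omega
    linear_combination (N : ℤ) * k * this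
  rw [e2] at h1
  have h2 := mul_left_cancel₀ hm0 h1
  linarith

/-- the data for a finite set -/
theorem exists_data {m : ℕ} (hm : 2 ≤ m) (S : Finset (Equiv.Perm ℤ))
    (hS : ∀ s ∈ S, s ∈ CT ∧ SlopePow m s) : ∃ N D : ℕ, 0 < N ∧ ∀ s ∈ S,
      (∀ n : ℤ, 0 ≤ s n ↔ 0 ≤ n) ∧
      ∀ n : ℤ, ∀ J : ℕ, D ≤ J → ∃ L : ℕ, L ≤ J + D ∧ J ≤ L + D ∧ Aff N m s J L n := by
  classical
  have h1 : ∀ s ∈ S, ∃ M : ℤ, 0 < M ∧ ∃ B : ℕ, ∀ n : ℤ, ∃ a b : ℕ, a ≤ B ∧ b ≤ B ∧
      ∀ k : ℤ, (m : ℤ) ^ a * (s (n + M * k) - s n) = (m : ℤ) ^ b * (M * k) := by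
    intro s hs
    obtain ⟨M, hM, h2⟩ := (hS s hs).2
    exact ⟨M, hM, slope_bound hM h2⟩
  choose! M hM B hB using h1
  refine ⟨∏ s ∈ S, (M s).toNat, S.sup B, ?_, ?_⟩
  · refine Finset.prod_pos fun s hs => ?_
    have := hM s hs
    omega
  · intro s hs
    refine ⟨sign_CT (hS s hs).1, fun n J hJ => ?_⟩
    have hBs : B s ≤ S.sup B := Finset.le_sup hs
    have hdvd : M s ∣ ((∏ s ∈ S, (M s).toNat : ℕ) : ℤ) := by
      have h3 : (M s).toNat ∣ ∏ s ∈ S, (M s).toNat := Finset.dvd_prod_of_mem _ hs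
      have h4 : ((M s).toNat : ℤ) = M s := Int.toNat_of_nonneg (hM s hs).le
      rw [← h4]
      exact_mod_cast h3
    obtain ⟨L, l1, l2, l3⟩ := slope_aff hm hdvd (hB s hs) n J (by omega)
    exact ⟨L, by omega, by omega, l3⟩

theorem freePair_map {G G' : Type*} [Group G] [Group G'] (f : G →* G')
    (hf : Function.Injective f) {s t : G} (h : FreePair s t) : FreePair (f s) (f t) := by
  refine freePair_of fun l l' hl => ?_
  have key : ∀ l : List Bool, wd (f s) (f t) l = f (wd s t l) := by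
    intro l
    induction l with
    | nil => simp [wd_nil]
    | cons b l ih =>
      rw [wd_cons, wd_cons, map_mul, ih]
      cases b <;> rfl
  rw [key, key] at hl
  exact freePair_wd h (hf hl)

/-- the alternative -/
theorem alternative {m : ℕ} (hm : 2 ≤ m) (S : Finset (Equiv.Perm ℤ))
    (hS : ∀ s ∈ S, s ∈ CT ∧ SlopePow m s) :
    (∃ A : Subgroup (Equiv.Perm ℤ), A ≤ Subgroup.closure (S : Set (Equiv.Perm ℤ)) ∧
      (A.subgroupOf (Subgroup.closure (S : Set (Equiv.Perm ℤ)))).FiniteIndex ∧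
      ∀ a ∈ A, ∀ b ∈ A, a * b = b * a) ∨
    ∃ s ∈ Subgroup.closure (S : Set (Equiv.Perm ℤ)),
      ∃ t ∈ Subgroup.closure (S : Set (Equiv.Perm ℤ)), FreePair s t := by
  obtain ⟨N, D, hN0, hD⟩ := exists_data hm S hS
  haveI : Fact (0 < N) := ⟨hN0⟩
  haveI : Fact (2 ≤ m) := ⟨hm⟩
  have hSG : ∀ s ∈ S, s ∈ Gp N m := by
    intro s hs
    obtain ⟨h1, h2⟩ := hD s hs
    exact ⟨h1, D, h2⟩
  let T : Set (Gp N m) := {h | (h : Equiv.Perm ℤ) ∈ S ∨ (h : Equiv.Perm ℤ)⁻¹ ∈ S}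
  have hT : Fam T (2 * D) := by
    constructor
    · rintro s (hs | hs)
      · right
        show ((s⁻¹ : Gp N m) : Equiv.Perm ℤ)⁻¹ ∈ S
        rw [Subgroup.coe_inv, inv_inv]
        exact hs
      · left
        show ((s⁻¹ : Gp N m) : Equiv.Perm ℤ) ∈ S
        rw [Subgroup.coe_inv]
        exact hs
    · rintro s (hs | hs) x J hJ
      · obtain ⟨L, h1, h2, h3⟩ := (hD _ hs).2 (x J) J (by omega)
        exact ⟨L, by omega, by omega, h3⟩
      · -- the inverse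
        obtain ⟨L, h1, h2, h3⟩ := (hD _ hs).2 ((s : Equiv.Perm ℤ) (x J)) D le_rfl
        have h4 := aff_up (aff_inv h3) (J - L)
        rw [inv_inv, inv_ap, show L + (J - L) = J by omega] at h4
        exact ⟨D + (J - L), by omega, by omega, h4⟩
  have hcl : (Subgroup.closure T).map (Gp N m).subtype =
      Subgroup.closure (S : Set (Equiv.Perm ℤ)) := by
    rw [MonoidHom.map_closure]
    apply le_antisymm
    · rw [Subgroup.closure_le]
      rintro _ ⟨h, hh | hh, rfl⟩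
      · exact Subgroup.subset_closure hh
      · exact (Subgroup.inv_mem_iff _).1 (Subgroup.subset_closure hh)
    · rw [Subgroup.closure_le]
      intro s hs
      exact Subgroup.subset_closure ⟨⟨s, hSG s hs⟩, Or.inl hs, rfl⟩
  by_cases hF : NoFree (Subgroup.closure T)
  · left
    refine ⟨(fixA (Subgroup.closure T)).map (Gp N m).subtype, ?_, ?_, ?_⟩
    · rw [← hcl]
      exact Subgroup.map_mono (fixA_le _)
    · rw [← hcl]
      have h1 := hT.finiteIndex hF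
      constructor
      have h2 := Subgroup.relIndex_map_map_of_injective (fixA (Subgroup.closure T))
        (Subgroup.closure T) (f := (Gp N m).subtype) (Gp N m).subtype_injective
      unfold Subgroup.relIndex at h2
      rw [h2]
      exact h1.index_ne_zero
    · rintro _ ⟨a, ha, rfl⟩ _ ⟨b, hb, rfl⟩
      rw [← map_mul, ← map_mul, hT.abelian hF a ha b hb]
  · right
    unfold NoFree at hF
    push Not at hF
    obtain ⟨s, hs, t, ht, hst⟩ := hF
    refine ⟨(Gp N m).subtype s, ?_, (Gp N m).subtype t, ?_,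
      freePair_map _ (Gp N m).subtype_injective hst⟩
    · rw [← hcl]
      exact ⟨s, hs, rfl⟩
    · rw [← hcl]
      exact ⟨t, ht, rfl⟩

end Pool.Agent.CTm
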