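import Pool.Agent.CTm.Cls

/-!
# The profinite space and the action
-/

namespace Pool.Agent.CTm

section
variable (N m : ℕ)

/-- the points: coherent sequences of residues modulo `N m ^ j` -/
def Pt : Type := {x : ℕ → ℤ // ∀ j, 0 ≤ x j ∧ x j < md N m j ∧ md N m j ∣ x (j + 1) - x j}

instance : CoeFun (Pt N m) (fun _ => ℕ → ℤ) := ⟨fun x => x.1⟩

/-- the sign preserving permutations which are affine, with slopes the powers of `m`, on all
classes of a sufficiently large level. -/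
def Gp : Subgroup (Equiv.Perm ℤ) where
  carrier := {h | (∀ n : ℤ, 0 ≤ h n ↔ 0 ≤ n) ∧ ∃ D' : ℕ, ∀ r : ℤ, ∀ J : ℕ, D' ≤ J →
    ∃ L : ℕ, L ≤ J + D' ∧ J ≤ L + D' ∧ Aff N m h J L r}
  one_mem' := ⟨fun _ => Iff.rfl, 0, fun r J _ => ⟨J, le_rfl, le_rfl, aff_one J r⟩⟩
  mul_mem' := by
    rintro g h ⟨g1, D1, g2⟩ ⟨h1, D2, h2⟩
    refine ⟨fun n => by rw [Equiv.Perm.mul_apply, g1, h1], D2 + D1, fun r J hJ => ?_⟩
    obtain ⟨L, a1, a2, a3⟩ := h2 r J (by omega)
    obtain ⟨K, b1, b2, b3⟩ := g2 (h r) L (by omega)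
    exact ⟨K, by omega, by omega, aff_mul a3 b3⟩
  inv_mem' := by
    rintro h ⟨h1, D', h2⟩
    refine ⟨fun n => by rw [← h1, ap_inv], 2 * D', fun r J hJ => ?_⟩
    obtain ⟨L, a1, a2, a3⟩ := h2 (h⁻¹ r) D' le_rfl
    have a4 := aff_up (aff_inv a3) (J - L)
    rw [ap_inv, show L + (J - L) = J by omega] at a4
    exact ⟨D' + (J - L), by omega, by omega, a4⟩

end

section
variable {N m : ℕ}

@[ext] theorem Pt.ext {x y : Pt N m} (h : ∀ j, x j = y j) : x = y := Subtype.ext (funext h)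

theorem Pt.nonneg (x : Pt N m) (j : ℕ) : 0 ≤ x j := (x.2 j).1

theorem Pt.lt (x : Pt N m) (j : ℕ) : x j < md N m j := (x.2 j).2.1

theorem Pt.coh (x : Pt N m) {j i : ℕ} (h : j ≤ i) : md N m j ∣ x i - x j := by
  induction i, h using Nat.le_induction with
  | base => simp
  | succ i hi ih =>
    have h1 := dvd_trans (md_dvd hi) (x.2 i).2.2
    have h2 := dvd_add h1 ih
    have e : x (i + 1) - x i + (x i - x j) = x (i + 1) - x j := by ring
    rwa [e] at h2

/-- two reduced residues which are congruent are equal -/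
theorem red_eq {M a b : ℤ} (ha : 0 ≤ a) (ha' : a < M) (hb : 0 ≤ b) (hb' : b < M)
    (h : M ∣ a - b) : a = b := by
  obtain ⟨t, ht⟩ := h
  have h0 : t = 0 := by
    by_contra hne
    rcases lt_or_gt_of_ne hne with h3 | h3 <;> nlinarith
  rw [h0] at ht
  linarith

theorem Pt.eq_of_dvd {x y : Pt N m} {j : ℕ} (h : md N m j ∣ x j - y j) : x j = y j :=
  red_eq (x.nonneg j) (x.lt j) (y.nonneg j) (y.lt j) h

theorem Pt.eq_le {x y : Pt N m} {j i : ℕ} (hji : j ≤ i) (h : x i = y i) : x j = y j := by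
  refine Pt.eq_of_dvd ?_
  have h1 := x.coh hji
  have h2 := y.coh hji
  rw [h] at h1
  have h3 := dvd_sub h2 h1
  have e : y i - y j - (y i - x j) = x j - y j := by ring
  rwa [e] at h3

/-- the point of an integer -/
def ofInt (hN : 0 < N) (hm : 2 ≤ m) (n : ℤ) : Pt N m :=
  ⟨fun j => n % md N m j, fun j => ⟨Int.emod_nonneg _ (md_pos hN hm j).ne',
    Int.emod_lt_of_pos _ (md_pos hN hm j), by
      have h1 : md N m j ∣ n % md N m (j + 1) - n := by
        have h2 := Int.emod_add_mul_ediv n (md N m (j + 1))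
        have h3 : n % md N m (j + 1) - n = md N m (j + 1) * (-(n / md N m (j + 1))) := by linarith
        rw [h3]
        exact dvd_mul_of_dvd_left (md_dvd (Nat.le_succ j)) _
      have h4 : md N m j ∣ n - n % md N m j := by
        have h2 := Int.emod_add_mul_ediv n (md N m j)
        exact ⟨n / md N m j, by linarith⟩
      have h5 := dvd_add h1 h4
      have e : n % md N m (j + 1) - n + (n - n % md N m j) =
        n % md N m (j + 1) - n % md N m j := by ring
      rwa [e] at h5⟩⟩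

theorem ofInt_dvd (hN : 0 < N) (hm : 2 ≤ m) (n : ℤ) (j : ℕ) : md N m j ∣ n - ofInt hN hm n j := by
  have h2 := Int.emod_add_mul_ediv n (md N m j)
  exact ⟨n / md N m j, by show n - n % md N m j = _; linarith⟩

theorem md_gt (hN : 0 < N) (hm : 2 ≤ m) (j : ℕ) : (j : ℤ) < md N m j := by
  have h1 : j < m ^ j := Nat.lt_pow_self (by omega)
  have h2 : m ^ j ≤ N * m ^ j := Nat.le_mul_of_pos_left _ hN
  have h3 : j < N * m ^ j := by omega
  show (j : ℤ) < (N : ℤ) * (m : ℤ) ^ j
  exact_mod_cast h3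

theorem ofInt_inj (hN : 0 < N) (hm : 2 ≤ m) {a b : ℤ} (h : ofInt hN hm a = ofInt hN hm b) :
    a = b := by
  by_contra hne
  have h1 := md_gt (N := N) (m := m) hN hm (a - b).natAbs
  have h2 := ofInt_dvd hN hm a (a - b).natAbs
  have h3 := ofInt_dvd hN hm b (a - b).natAbs
  rw [h] at h2
  have h4 := dvd_sub h2 h3
  have e : a - ofInt hN hm b (a - b).natAbs - (b - ofInt hN hm b (a - b).natAbs) = a - b := by ring
  rw [e] at h4
  have h5 := Int.le_of_dvd (abs_pos.2 (sub_ne_zero.2 hne)) ((dvd_abs _ _).2 h4)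
  rw [Int.natCast_natAbs] at h1
  omega

/-- `y` is the image of `x` -/
def Maps (h : Equiv.Perm ℤ) (x y : Pt N m) : Prop :=
  ∀ J, ∃ I, ∀ n : ℤ, md N m I ∣ n - x I → md N m J ∣ h n - y J

theorem Maps.unique {h : Equiv.Perm ℤ} {x y y' : Pt N m} (h1 : Maps h x y) (h2 : Maps h x y') :
    y = y' := by
  ext J
  obtain ⟨I, hI⟩ := h1 J
  obtain ⟨I', hI'⟩ := h2 J
  have a1 := hI (x (max I I')) (x.coh (le_max_left _ _))
  have a2 := hI' (x (max I I')) (x.coh (le_max_right _ _))
  refine Pt.eq_of_dvd ?_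
  have a3 := dvd_sub a2 a1
  have e : h (x (max I I')) - y' J - (h (x (max I I')) - y J) = y J - y' J := by ring
  rwa [e] at a3

theorem Maps.one (x : Pt N m) : Maps 1 x x := fun J => ⟨J, fun _ hn => hn⟩

theorem Maps.mul {g h : Equiv.Perm ℤ} {x y z : Pt N m} (h1 : Maps h x y) (h2 : Maps g y z) :
    Maps (g * h) x z := by
  intro J
  obtain ⟨I, hI⟩ := h2 J
  obtain ⟨K, hK⟩ := h1 I
  exact ⟨K, fun n hn => hI _ (hK n hn)⟩

theorem Maps.exists (hN : 0 < N) (hm : 2 ≤ m) {h : Equiv.Perm ℤ} (hh : h ∈ Gp N m)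
    (x : Pt N m) : ∃ y, Maps h x y := by
  obtain ⟨-, D, hD⟩ := hh
  -- the images of congruent numbers
  have key : ∀ J : ℕ, ∀ n n' : ℤ, md N m (J + 2 * D) ∣ n - n' → md N m J ∣ h n - h n' := by
    intro J n n' hn
    obtain ⟨L, a1, a2, a3⟩ := hD n' (J + 2 * D) (by omega)
    have a4 := aff_dvd a3 (n := n) (i := 0) hn
    exact dvd_trans (md_dvd (by omega)) a4
  have hemod : ∀ a : ℤ, ∀ J : ℕ, md N m J ∣ a - a % md N m J := by
    intro a J
    have h2 := Int.emod_add_mul_ediv a (md N m J)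
    exact ⟨a / md N m J, by linarith⟩
  refine ⟨⟨fun J => h (x (J + 2 * D)) % md N m J, fun J => ⟨Int.emod_nonneg _ (md_pos hN hm J).ne',
    Int.emod_lt_of_pos _ (md_pos hN hm J), ?_⟩⟩, ?_⟩
  · have b1 := hemod (h (x (J + 1 + 2 * D))) (J + 1)
    have b2 := hemod (h (x (J + 2 * D))) J
    have b3 := key J (x (J + 1 + 2 * D)) (x (J + 2 * D)) (x.coh (by omega))
    have b4 := dvd_trans (md_dvd (Nat.le_succ J)) b1
    have b5 := dvd_add (dvd_sub b3 b4) b2
    have e : h (x (J + 1 + 2 * D)) - h (x (J + 2 * D)) -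
        (h (x (J + 1 + 2 * D)) - h (x (J + 1 + 2 * D)) % md N m (J + 1)) +
        (h (x (J + 2 * D)) - h (x (J + 2 * D)) % md N m J) =
        h (x (J + 1 + 2 * D)) % md N m (J + 1) - h (x (J + 2 * D)) % md N m J := by ring
    rwa [e] at b5
  · intro J
    refine ⟨J + 2 * D, fun n hn => ?_⟩
    have b1 := key J n _ hn
    have b2 := hemod (h (x (J + 2 * D))) J
    have b3 := dvd_add b1 b2
    have e : h n - h (x (J + 2 * D)) + (h (x (J + 2 * D)) - h (x (J + 2 * D)) % md N m J) =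
      h n - h (x (J + 2 * D)) % md N m J := by ring
    rw [e] at b3
    exact b3

end

section
variable {N m : ℕ} [hN : Fact (0 < N)] [hm : Fact (2 ≤ m)]

noncomputable instance : MulAction (Gp N m) (Pt N m) where
  smul h x := (Maps.exists hN.out hm.out h.2 x).choose
  one_smul x := (Maps.unique (Maps.exists hN.out hm.out (1 : Gp N m).2 x).choose_spec
    (Maps.one x))
  mul_smul g h x := Maps.unique (Maps.exists hN.out hm.out (g * h : Gp N m).2 x).choose_spec
    (Maps.mul (Maps.exists hN.out hm.out h.2 x).choose_spec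
      (Maps.exists hN.out hm.out g.2 _).choose_spec)

theorem maps_smul (h : Gp N m) (x : Pt N m) : Maps (h : Equiv.Perm ℤ) x (h • x) :=
  (Maps.exists hN.out hm.out h.2 x).choose_spec

theorem smul_eq {h : Gp N m} {x y : Pt N m} (h1 : Maps (h : Equiv.Perm ℤ) x y) : h • x = y :=
  Maps.unique (maps_smul h x) h1

/-- `h` is affine on the class of `x` of level `J`, with image a class of level `L` -/
def Loc (h : Gp N m) (x : Pt N m) (J L : ℕ) : Prop := Aff N m (h : Equiv.Perm ℤ) J L (x J)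

theorem Loc.dvd {h : Gp N m} {x : Pt N m} {J L : ℕ} (h1 : Loc h x J L) (i : ℕ) :
    md N m (L + i) ∣ (h : Equiv.Perm ℤ) (x (J + i)) - (h • x) (L + i) := by
  obtain ⟨I, hI⟩ := maps_smul h x (L + i)
  have a1 := hI (x (max I (J + i))) (x.coh (le_max_left _ _))
  have a0 : Aff N m (h : Equiv.Perm ℤ) (J + i) (L + i) (x (J + i)) :=
    aff_restrict h1 (x.coh (by omega)) i
  have a2 := aff_dvd a0 (n := x (max I (J + i))) (i := 0) (x.coh (le_max_right _ _))
  have a3 := dvd_sub a1 a2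
  have e : (h : Equiv.Perm ℤ) (x (max I (J + i))) - (h • x) (L + i) -
    ((h : Equiv.Perm ℤ) (x (max I (J + i))) - (h : Equiv.Perm ℤ) (x (J + i))) =
    (h : Equiv.Perm ℤ) (x (J + i)) - (h • x) (L + i) := by ring
  rw [e] at a3
  exact a3

theorem Loc.one (x : Pt N m) (J : ℕ) : Loc 1 x J J := aff_one J _

theorem Loc.mul {g h : Gp N m} {x : Pt N m} {J L K : ℕ} (h1 : Loc h x J L)
    (h2 : Loc g (h • x) L K) : Loc (g * h) x J K := by
  refine aff_mul h1 (aff_self h2 ?_)
  have := h1.dvd 0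
  simpa using this

theorem Loc.inv {h : Gp N m} {x : Pt N m} {J L : ℕ} (h1 : Loc h x J L) :
    Loc h⁻¹ (h • x) L J := by
  have a1 := aff_inv h1
  refine aff_self a1 ?_
  have := h1.dvd 0
  have h3 := (dvd_neg (a := md N m (L + 0))).2 this
  simpa using h3

theorem Loc.up {h : Gp N m} {x : Pt N m} {J L : ℕ} (h1 : Loc h x J L) (i : ℕ) :
    Loc h x (J + i) (L + i) := aff_restrict h1 (x.coh (by omega)) i

theorem Loc.cong {h : Gp N m} {x y : Pt N m} {J L : ℕ} (h1 : Loc h x J L) (hxy : y J = x J) :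
    Loc h y J L := by
  unfold Loc
  rw [hxy]
  exact h1

theorem Loc.img {h : Gp N m} {x y : Pt N m} {J L : ℕ} (h1 : Loc h x J L) {i : ℕ}
    (hxy : y (J + i) = x (J + i)) : (h • y) (L + i) = (h • x) (L + i) := by
  have h2 : y J = x J := Pt.eq_le (by omega) hxy
  have h3 := (h1.cong h2).dvd i
  have h4 := h1.dvd i
  rw [hxy] at h3
  refine Pt.eq_of_dvd ?_
  have h5 := dvd_sub h4 h3
  have e : (h : Equiv.Perm ℤ) (x (J + i)) - (h • x) (L + i) -
    ((h : Equiv.Perm ℤ) (x (J + i)) - (h • y) (L + i)) = (h • y) (L + i) - (h • x) (L + i) := by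
    ring
  rwa [e] at h5

theorem Loc.img0 {h : Gp N m} {x y : Pt N m} {J L : ℕ} (h1 : Loc h x J L)
    (hxy : y J = x J) : (h • y) L = (h • x) L := h1.img (i := 0) hxy

theorem Loc.img' {h : Gp N m} {x y : Pt N m} {J L : ℕ} (h1 : Loc h x J L) {i : ℕ}
    (hxy : (h • y) (L + i) = (h • x) (L + i)) : y (J + i) = x (J + i) := by
  have h2 := h1.inv.img (y := h • y) hxy
  simpa using h2

theorem Loc.unique {h : Gp N m} {x : Pt N m} {J L J' L' : ℕ} (h1 : Loc h x J L)
    (h2 : Loc h x J' L') : J + L' = J' + L := by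
  have h3 := h1.up J'
  have h4 := h2.up J
  rw [add_comm J' J] at h4
  have h5 := aff_unique hN.out hm.out h3 h4
  omega

/-- an affine map of a class onto itself is the identity on the class -/
theorem Loc.fix {h : Gp N m} {x y : Pt N m} {J : ℕ} (h1 : Loc h x J J) (h2 : (h • x) J = x J)
    (hy : y J = x J) : h • y = y := by
  have h3 : md N m J ∣ (h : Equiv.Perm ℤ) (x J) - x J := by
    have := h1.dvd 0
    rw [add_zero, h2] at this
    exact this
  have h4 := h.2.1
  refine smul_eq fun K => ⟨max J K, fun n hn => ?_⟩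
  have h5 : md N m J ∣ n - x J := by
    have a1 := dvd_trans (md_dvd (le_max_left J K)) hn
    have a2 := y.coh (le_max_left J K)
    rw [hy] at a2
    have a3 := dvd_add a1 a2
    have e : n - y (max J K) + (y (max J K) - x J) = n - x J := by ring
    rwa [e] at a3
  rw [aff_id hN.out hm.out h4 h1 h3 h5]
  have a1 := dvd_trans (md_dvd (le_max_right J K)) hn
  have a2 := y.coh (le_max_right J K)
  have a3 := dvd_add a1 a2
  have e : n - y (max J K) + (y (max J K) - y K) = n - y K := by ring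
  rwa [e] at a3

theorem loc_ex (h : Gp N m) : ∃ D' : ℕ, ∀ x : Pt N m, ∀ J : ℕ, D' ≤ J →
    ∃ L : ℕ, L ≤ J + D' ∧ J ≤ L + D' ∧ Loc h x J L := by
  obtain ⟨-, D, hD⟩ := h.2
  exact ⟨D, fun x J hJ => hD (x J) J hJ⟩

/-- the action is faithful -/
theorem faithful {h : Gp N m} (h1 : ∀ x : Pt N m, h • x = x) : h = 1 := by
  apply Subtype.ext
  ext n
  have h2 : h • ofInt hN.out hm.out n = ofInt hN.out hm.out ((h : Equiv.Perm ℤ) n) := by
    obtain ⟨-, D, hD⟩ := h.2
    refine smul_eq fun J => ⟨J + 2 * D, fun k hk => ?_⟩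
    obtain ⟨L, a1, a2, a3⟩ := hD n (J + 2 * D) (by omega)
    have a4 := ofInt_dvd hN.out hm.out n (J + 2 * D)
    have a5 : md N m (J + 2 * D) ∣ k - n := by
      have := dvd_sub hk a4
      have e : k - ofInt hN.out hm.out n (J + 2 * D) - (n - ofInt hN.out hm.out n (J + 2 * D)) =
        k - n := by ring
      rwa [e] at this
    have a6 := aff_dvd a3 (i := 0) a5
    have a7 := dvd_trans (md_dvd (show J ≤ L + 0 by omega)) a6
    have a8 := ofInt_dvd hN.out hm.out ((h : Equiv.Perm ℤ) n) J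
    have a9 := dvd_add a7 a8
    have e : (h : Equiv.Perm ℤ) k - (h : Equiv.Perm ℤ) n + ((h : Equiv.Perm ℤ) n -
      ofInt hN.out hm.out ((h : Equiv.Perm ℤ) n) J) =
      (h : Equiv.Perm ℤ) k - ofInt hN.out hm.out ((h : Equiv.Perm ℤ) n) J := by ring
    rwa [e] at a9
  rw [h1] at h2
  exact (ofInt_inj hN.out hm.out h2).symm

end

end Pool.Agent.CTm
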